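import Pool.Agent.Lib.TWRB.Sub
import Pool.Agent.Lib.TWLG64.Fil

/-!
# RowB, (2a): the twisted functionals

`shU t F = F(s, c + t(s))`; `dt d t F = shU t (Dc d (shU (-t) F))`: `d` is applied to the coefficients
in the letters `s`, `T = c + t(s)`.
* `AdmE S₀ C Q`: `Q` is a set of exponents (all of them, or the multiples of `p`), stable under
  substitutions, the substitution of polynomials over `C` in such monomials gives polynomials over `S₀`;
* `dt_congr`: `dt d t` depends on `t` modulo `C[s]` only;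
* `dt_ge`, `dt_fil`, `dt_filO`: `dt d t` has norm `≤ 0` and respects the weights, if the coefficients of `t`
  are limits of `C` (and elements of `C` in the heavy degrees);
* `dt_near`: `dt d t F'` is in `O_0` if `F'` is near to `shU t E`, `d E = 0`;
* `dt_aeval`: `dt d (τ U) (Z(L)) = (dt d U Z)(L)` for `L = (X + s, c + Y + (τ U)(s) - U(X + s))`.
-/

set_option autoImplicit false

open MvPolynomial

namespace Pool.Agent.TWEC

open Pool.Agent.H15JM (RVal)
open Pool.Agent.D2 (Ctx0)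
open Pool.Agent.TWM
open Pool.Agent.TWS (IsoE)
open Pool.Agent.TWLY
open Pool.Agent.TWCY
open Pool.Agent.TWCU
open Pool.Agent.TWRB
open Pool.Agent.TWLG64

universe u

variable {k Ω : Type u} [Field k] [Field Ω] [Algebra k Ω] {v : RVal Ω}
  {S₀ C₀ : IntermediateField k Ω}

/-! ### Admissible exponents -/

/-- A set of exponents which is stable under substitutions; the substitution of polynomials over `C₀`
gives polynomials over `S₀`. -/
structure AdmE (S₀ C₀ : IntermediateField k Ω) (Q : Ex → Prop) : Prop where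
  lin : ∀ m, Q m → ∀ M : Fin 2 → MvPolynomial (Fin 2) Ω, (∀ i g, coeff g (M i) ∈ C₀) →
    ∀ g, coeff g (∏ i, M i ^ m i) ∈ S₀
  cl : ∀ m, Q m → ∀ (M : Fin 2 → MvPolynomial (Fin 2) Ω) (g : Ex), coeff g (∏ i, M i ^ m i) ≠ 0 → Q g

/-- All exponents. -/
theorem admE_all (h : C₀ ≤ S₀) : AdmE S₀ C₀ (fun _ => True) :=
  ⟨fun m _ _ hM g => h (coeff_prod_mem hM m g), fun _ _ _ _ _ => trivial⟩

theorem coeff_pow_p (p : ℕ) [hp : Fact p.Prime] [CharP Ω p] (M : MvPolynomial (Fin 2) Ω) (g : Ex) :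
    (coeff g (M ^ p) ≠ 0 → ∀ i, p ∣ g i) ∧
      ∀ C₁ : IntermediateField k Ω, (∀ g, coeff g M ∈ C₁) → ∃ c ∈ C₁, coeff g (M ^ p) = c ^ p := by
  classical
  have : ExpChar Ω p := ExpChar.prime hp.out
  have h0 : M ^ p = ∑ m ∈ M.support, monomial (p • m) (coeff m M ^ p) := by
    conv_lhs => rw [M.as_sum, sum_pow_char p]
    refine Finset.sum_congr rfl fun m _ => ?_
    rw [monomial_pow]
  rw [h0, coeff_sum]
  simp_rw [coeff_monomial]
  refine ⟨fun h => ?_, fun C₁ hC => ?_⟩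
  · obtain ⟨m, -, h1⟩ := Finset.exists_ne_zero_of_sum_ne_zero h
    split_ifs at h1 with h2
    · intro i
      rw [← h2]
      exact ⟨m i, by simp⟩
    · exact absurd rfl h1
  · refine ⟨∑ m ∈ M.support, if p • m = g then coeff m M else 0, sum_mem fun m _ => ?_, ?_⟩
    · split_ifs
      exacts [hC m, zero_mem _]
    · rw [sum_pow_char p]
      refine Finset.sum_congr rfl fun m _ => ?_
      split_ifs
      · rfl
      · rw [zero_pow hp.out.ne_zero]

/-- The multiples of `p`. -/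
theorem admE_p (p : ℕ) [hp : Fact p.Prime] [CharP Ω p] (h : ∀ c ∈ C₀, c ^ p ∈ S₀) :
    AdmE S₀ C₀ (fun m => ∀ i, p ∣ m i) := by
  have key : ∀ (m : Ex), (∀ i, p ∣ m i) → ∀ M : Fin 2 → MvPolynomial (Fin 2) Ω,
      ∏ i, M i ^ m i = (∏ i, M i ^ (m i / p)) ^ p := by
    intro m hm M
    rw [← Finset.prod_pow]
    refine Finset.prod_congr rfl fun i _ => ?_
    rw [← pow_mul, Nat.div_mul_cancel (hm i)]
  refine ⟨fun m hm M hM g => ?_, fun m hm M g hg => ?_⟩
  · rw [key m hm M]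
    obtain ⟨c, hc, h1⟩ := (coeff_pow_p (k := k) p (∏ i, M i ^ (m i / p)) g).2 C₀ fun g' => by
      have h2 := coeff_prod_mem hM (Finsupp.equivFunOnFinite.symm fun i => m i / p) g'
      exact h2
    rw [h1]
    exact h c hc
  · rw [key m hm M] at hg
    exact (coeff_pow_p (k := k) p _ g).1 hg

/-- The exponents are in `Q`. -/
def QF (Q : Ex → Prop) (F : MvPolynomial (Fin 2) Ω) : Prop := ∀ g, coeff g F ≠ 0 → Q g

variable {Q : Ex → Prop}

theorem QF.add {F G : MvPolynomial (Fin 2) Ω} (hF : QF Q F) (hG : QF Q G) : QF Q (F + G) := by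
  intro g hg
  by_cases h : coeff g F = 0
  · refine hG g fun h1 => hg ?_
    rw [coeff_add, h, h1, add_zero]
  · exact hF g h

theorem QF.neg {F : MvPolynomial (Fin 2) Ω} (hF : QF Q F) : QF Q (-F) := fun g hg =>
  hF g fun h => hg (by rw [coeff_neg, h, neg_zero])

theorem QF.sub {F G : MvPolynomial (Fin 2) Ω} (hF : QF Q F) (hG : QF Q G) : QF Q (F - G) := by
  rw [sub_eq_add_neg]
  exact hF.add hG.neg

theorem QF.map_aeval (hA : AdmE S₀ C₀ Q) (M : Fin 2 → MvPolynomial (Fin 2) Ω)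
    {F : MvPolynomial (Fin 2) Ω} (hF : QF Q F) : QF Q (aeval M F) := by
  intro g hg
  rw [aeval_def, eval₂_eq', algebraMap_eq, coeff_sum] at hg
  obtain ⟨m, hm, h1⟩ := Finset.exists_ne_zero_of_sum_ne_zero hg
  rw [coeff_C_mul] at h1
  exact hA.cl m (hF m (mem_support_iff.1 hm)) M g (right_ne_zero_of_mul h1)

theorem QF.shU (hA : AdmE S₀ C₀ Q) (t : Polynomial Ω) {F : MvPolynomial (Fin 2) Ω}
    (hF : QF Q F) : QF Q (shU t F) := hF.map_aeval hA _

theorem QF.dc (d : Ω →ₗ[S₀] Ω) {F : MvPolynomial (Fin 2) Ω} (hF : QF Q F) : QF Q (Dc d F) := by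
  intro g hg
  refine hF g fun h => hg ?_
  rw [coeff_Dc' (map_zero d), h, map_zero]

theorem Dc_aeval_adm (hA : AdmE S₀ C₀ Q) (d : Ω →ₗ[S₀] Ω) {M : Fin 2 → MvPolynomial (Fin 2) Ω}
    (hM : ∀ i g, coeff g (M i) ∈ C₀) {F : MvPolynomial (Fin 2) Ω} (hF : QF Q F) :
    Dc d (aeval M F) = aeval M (Dc d F) :=
  aeval_lin d fun m hm g => hA.lin m (hF m hm) M hM g

theorem coeff_poly_mem {f : Polynomial Ω} (hf : ∀ j, f.coeff j ∈ C₀) (g : Ex) :
    coeff g (Polynomial.aeval (X 0 : MvPolynomial (Fin 2) Ω) f) ∈ C₀ := by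
  classical
  rw [Polynomial.aeval_eq_sum_range, coeff_sum]
  refine sum_mem fun j _ => ?_
  rw [coeff_smul, smul_eq_mul, coeff_X_pow]
  refine mul_mem (hf j) ?_
  split_ifs
  exacts [one_mem _, zero_mem _]

theorem coeff_shU_pair {f : Polynomial Ω} (hf : ∀ j, f.coeff j ∈ C₀) (i : Fin 2) (g : Ex) :
    coeff g ((![X 0, X 1 + Polynomial.aeval (X 0) f] : Fin 2 → MvPolynomial (Fin 2) Ω) i) ∈ C₀ := by
  classical
  have hX : ∀ (j : Fin 2) (g : Ex), coeff g (X j : MvPolynomial (Fin 2) Ω) ∈ C₀ := by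
    intro j g
    rw [coeff_X]
    split_ifs
    exacts [one_mem _, zero_mem _]
  fin_cases i
  · exact hX 0 g
  · change coeff g (X 1 + Polynomial.aeval (X 0) f) ∈ C₀
    rw [coeff_add]
    exact add_mem (hX 1 g) (coeff_poly_mem hf g)

theorem Dc_shU (hA : AdmE S₀ C₀ Q) (d : Ω →ₗ[S₀] Ω) {f : Polynomial Ω}
    (hf : ∀ j, f.coeff j ∈ C₀) {F : MvPolynomial (Fin 2) Ω} (hF : QF Q F) :
    Dc d (shU f F) = shU f (Dc d F) :=
  Dc_aeval_adm hA d (coeff_shU_pair hf) hF

/-! ### The twisted functional -/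

section dt

variable (d : Ω →ₗ[S₀] Ω)

theorem dt_add (t : Polynomial Ω) (F G : MvPolynomial (Fin 2) Ω) :
    dt d t (F + G) = dt d t F + dt d t G := by
  rw [dt, dt, dt, map_add, Dc_add, map_add]

theorem dt_zero' (t : Polynomial Ω) : dt d t (0 : MvPolynomial (Fin 2) Ω) = 0 := by
  have h := dt_add d t 0 0
  rw [add_zero] at h
  simpa using h

theorem dt_sub (t : Polynomial Ω) (F G : MvPolynomial (Fin 2) Ω) :
    dt d t (F - G) = dt d t F - dt d t G := by
  have h := dt_add d t (F - G) G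
  rw [sub_add_cancel] at h
  rw [h, add_sub_cancel_right]

theorem QF.dt (hA : AdmE S₀ C₀ Q) (t : Polynomial Ω) {F : MvPolynomial (Fin 2) Ω} (hF : QF Q F) :
    QF Q (dt d t F) := ((hF.shU hA _).dc d).shU hA _

/-- **`dt d t` depends on `t` modulo `C₀[s]` only.** -/
theorem dt_congr (hA : AdmE S₀ C₀ Q) {t f : Polynomial Ω} (hf : ∀ j, f.coeff j ∈ C₀)
    {F : MvPolynomial (Fin 2) Ω} (hF : QF Q F) : dt d (t + f) F = dt d t F := by
  have h1 : shU (-(t + f)) F = shU (-f) (shU (-t) F) := by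
    rw [shU_shU]
    congr 2
    ring
  have hf' : ∀ j, (-f).coeff j ∈ C₀ := fun j => by
    rw [Polynomial.coeff_neg]
    exact neg_mem (hf j)
  rw [dt, dt, h1, Dc_shU hA d hf' (hF.shU hA _), shU_shU]
  congr 2
  ring

/-- Over `C₀` it is `d` on the coefficients. -/
theorem dt_of_mem (hA : AdmE S₀ C₀ Q) {t : Polynomial Ω} (ht : ∀ j, t.coeff j ∈ C₀)
    {F : MvPolynomial (Fin 2) Ω} (hF : QF Q F) : dt d t F = Dc d F := by
  have h := dt_congr (t := 0) d hA ht hF
  rw [zero_add] at h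
  rw [h, dt, neg_zero, shU_zero, shU_zero]

end dt

/-! ### Weights -/

section wts

variable {w : Fin 2 → ℝ}

/-- The substitution by a filtered `δ` respects the weights. -/
theorem shU_fil (hk : Ctx0 k v) {δ : Polynomial Ω}
    (hδ : ∀ j : ℕ, v.Ge (j * w 0 - w 1) (δ.coeff j)) {e : ℝ} {F : MvPolynomial (Fin 2) Ω}
    (hF : Fil v w e F) : Fil v w e (shU δ F) := by
  classical
  have hδ' : Fil v w (w 1) (Polynomial.aeval (X 0 : MvPolynomial (Fin 2) Ω) δ) := by
    rw [Polynomial.aeval_eq_sum_range]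
    refine Fil.sum _ _ fun j _ => ?_
    rw [smul_eq_C_mul]
    have h1 : Fil v w (w 1 - j * w 0) (C (δ.coeff j) : MvPolynomial (Fin 2) Ω) :=
      Fil.C ((hδ j).mono (by linarith))
    refine (h1.mul ((Fil.X hk 0).pow hk j)).mono (by linarith)
  have h0 : Fil v w (w 1) (X 1 + Polynomial.aeval (X 0) δ : MvPolynomial (Fin 2) Ω) :=
    (Fil.X hk 1).add hδ'
  rw [shU, aeval_def, eval₂_eq']
  refine Fil.sum _ _ fun m _ => ?_
  rw [algebraMap_eq, Fin.prod_univ_two]
  have h1 : Fil v w (e - wt w m) (C (coeff m F) : MvPolynomial (Fin 2) Ω) :=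
    Fil.C ((hF m).mono (by linarith))
  refine (h1.mul (((Fil.X hk 0).pow hk (m 0)).mul (h0.pow hk (m 1)))).mono ?_
  unfold wt
  linarith

theorem Dc_fil (d : Ω →ₗ[S₀] Ω) (hd : ∀ (y : Ω) (c : ℝ), v.Ge c y → v.Ge c (d y)) {e : ℝ}
    {F : MvPolynomial (Fin 2) Ω} (hF : Fil v w e F) : Fil v w e (Dc d F) := fun g => by
  rw [coeff_Dc' (map_zero d)]
  exact hd _ _ (hF g)

/-- Approximation of `t` by a polynomial over `C₀`. -/
theorem exists_approx {t : Polynomial Ω} {ε : ℕ → ℝ} (hε : ∀ j, 0 < ε j ∨ t.coeff j ∈ C₀)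
    (ht : ∀ j, Lim v C₀ 0 (t.coeff j)) : ∃ f : Polynomial Ω, (∀ j, f.coeff j ∈ C₀) ∧
      (∀ j, v.Ge (-ε j) ((t - f).coeff j)) ∧ ∀ j, t.coeff j ∈ C₀ → (t - f).coeff j = 0 := by
  classical
  have h1 : ∀ j, ∃ c ∈ C₀, v.Ge (-ε j) (t.coeff j - c) ∧ (t.coeff j ∈ C₀ → t.coeff j - c = 0) := by
    intro j
    by_cases hj : t.coeff j ∈ C₀
    · exact ⟨t.coeff j, hj, by rw [sub_self]; exact fun h => absurd rfl h, fun _ => sub_self _⟩
    · obtain ⟨c, hc, h2⟩ := ht j (ε j) ((hε j).resolve_right hj)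
      exact ⟨c, hc, by rwa [zero_sub] at h2, fun h => absurd h hj⟩
  choose c hc h2 h3 using h1
  refine ⟨∑ j ∈ t.support, Polynomial.monomial j (c j), fun j => ?_, fun j => ?_, fun j hj => ?_⟩
  all_goals
    have e : (∑ i ∈ t.support, Polynomial.monomial i (c i)).coeff j =
        if j ∈ t.support then c j else 0 := by
      rw [Polynomial.finsetSum_coeff]
      simp_rw [Polynomial.coeff_monomial]
      rw [Finset.sum_ite_eq']
  · rw [e]
    split_ifs
    exacts [hc j, zero_mem _]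
  · rw [Polynomial.coeff_sub, e]
    split_ifs with h
    · exact h2 j
    · rw [Polynomial.notMem_support_iff.1 h, sub_zero]
      exact fun h => absurd rfl h
  · rw [Polynomial.coeff_sub, e]
    split_ifs with h
    · exact h3 j hj
    · rw [Polynomial.notMem_support_iff.1 h, sub_zero]

variable (d : Ω →ₗ[S₀] Ω)

/-- **`dt d t` respects the weights.** -/
theorem dt_fil (hk : Ctx0 k v) (hA : AdmE S₀ C₀ Q)
    (hd : ∀ (y : Ω) (c : ℝ), v.Ge c y → v.Ge c (d y)) {t : Polynomial Ω}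
    (ht : ∀ j, Lim v C₀ 0 (t.coeff j)) (htw : ∀ j : ℕ, j * w 0 < w 1 ∨ t.coeff j ∈ C₀) {e : ℝ}
    {F : MvPolynomial (Fin 2) Ω} (hQ : QF Q F) (hF : Fil v w e F) : Fil v w e (dt d t F) := by
  obtain ⟨f, hf, h1, h2⟩ := exists_approx (ε := fun j => w 1 - j * w 0)
    (fun j => (htw j).imp (fun h => by linarith) id) ht
  have hδ : ∀ j : ℕ, v.Ge (j * w 0 - w 1) ((t - f).coeff j) := fun j =>
    (h1 j).mono (by linarith)
  have hδ' : ∀ j : ℕ, v.Ge (j * w 0 - w 1) ((-(t - f)).coeff j) := fun j => by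
    rw [Polynomial.coeff_neg]
    exact (hδ j).neg
  have e1 : dt d t F = dt d (t - f) F := by
    conv_lhs => rw [← sub_add_cancel t f]
    exact dt_congr d hA hf hQ
  rw [e1, dt]
  exact shU_fil hk hδ (Dc_fil d hd (shU_fil hk hδ' hF))

/-- **`dt d t` has norm `≤ 0`.** -/
theorem dt_ge (hk : Ctx0 k v) (hA : AdmE S₀ C₀ Q)
    (hd : ∀ (y : Ω) (c : ℝ), v.Ge c y → v.Ge c (d y)) {t : Polynomial Ω}
    (ht : ∀ j, Lim v C₀ 0 (t.coeff j)) {r : ℝ} {F : MvPolynomial (Fin 2) Ω} (hQ : QF Q F)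
    (hF : ∀ g, v.Ge r (coeff g F)) (g : Ex) : v.Ge r (coeff g (dt d t F)) := by
  obtain ⟨N, hN⟩ : ∃ N : ℕ, ∀ m ∈ F.support, m 1 ≤ N :=
    ⟨F.support.sup fun m => m 1, fun m hm => Finset.le_sup (f := fun m : Ex => m 1) hm⟩
  have key : ∀ ε : ℝ, 0 < ε → v.Ge (r - N * ε) (coeff g (dt d t F)) := by
    intro ε hε
    have h1 : Fil v (![0, ε] : Fin 2 → ℝ) (N * ε - r) F := by
      intro m
      by_cases hm : m ∈ F.support
      · refine (hF m).mono ?_
        have h2 : ((m 1 : ℕ) : ℝ) ≤ N := by exact_mod_cast hN m hm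
        simp only [wt, Matrix.cons_val_zero, Matrix.cons_val_one]
        nlinarith
      · rw [notMem_support_iff.1 hm]
        exact fun h => absurd rfl h
    have h3 := dt_fil (w := (![0, ε] : Fin 2 → ℝ)) d hk hA hd ht (fun j => Or.inl (by
      simpa using hε)) hQ h1 g
    refine h3.mono ?_
    simp only [wt, Matrix.cons_val_zero, Matrix.cons_val_one]
    have : (0 : ℝ) ≤ (g 1 : ℝ) := Nat.cast_nonneg _
    nlinarith
  intro h0
  refine le_of_forall_pos_le_add fun η hη => ?_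
  have h1 := key (η / (N + 1)) (by positivity) h0
  have h2 : (N : ℝ) * (η / (N + 1)) ≤ η := by
    rw [mul_div_assoc', div_le_iff₀ (by positivity)]
    nlinarith
  linarith

/-- The same for strict bounds. -/
theorem dt_gt (hk : Ctx0 k v) (hA : AdmE S₀ C₀ Q)
    (hd : ∀ (y : Ω) (c : ℝ), v.Ge c y → v.Ge c (d y)) {t : Polynomial Ω}
    (ht : ∀ j, Lim v C₀ 0 (t.coeff j)) {r : ℝ} {F : MvPolynomial (Fin 2) Ω} (hQ : QF Q F)
    (hF : ∀ g, Gt v r (coeff g F)) (g : Ex) : Gt v r (coeff g (dt d t F)) := by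
  obtain ⟨r', hr', h1⟩ : ∃ r' : ℝ, r < r' ∧ ∀ m, v.Ge r' (coeff m F) := by
    classical
    by_cases hs : F.support.Nonempty
    · obtain ⟨m₀, hm₀, hmin⟩ := F.support.exists_min_image (fun m => v (coeff m F)) hs
      refine ⟨v (coeff m₀ F), hF m₀ (mem_support_iff.1 hm₀), fun m h => hmin m (mem_support_iff.2 h)⟩
    · refine ⟨r + 1, by linarith, fun m h => absurd ⟨m, mem_support_iff.2 h⟩ hs⟩
  exact fun h => lt_of_lt_of_le hr' (dt_ge d hk hA hd ht hQ h1 g h)

/-- The coefficients of combined weight `≤ e`, modulo `O_r`. -/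
theorem dt_min (hk : Ctx0 k v) (hA : AdmE S₀ C₀ Q)
    (hd : ∀ (y : Ω) (c : ℝ), v.Ge c y → v.Ge c (d y)) {t : Polynomial Ω}
    (ht : ∀ j, Lim v C₀ 0 (t.coeff j)) (htw : ∀ j : ℕ, j * w 0 < w 1 ∨ t.coeff j ∈ C₀) {e r : ℝ}
    {F : MvPolynomial (Fin 2) Ω} (hQ : QF Q F)
    (hF : ∀ g, v.Ge (min r (wt w g - e)) (coeff g F)) (g : Ex) :
    v.Ge (min r (wt w g - e)) (coeff g (dt d t F)) := by
  classical
  set F₁ : MvPolynomial (Fin 2) Ω := ∑ m ∈ F.support.filter fun m => wt w m - e ≤ r,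
    monomial m (coeff m F) with hF₁
  have hc : ∀ m, coeff m F₁ = if wt w m - e ≤ r then coeff m F else 0 := by
    intro m
    rw [hF₁, coeff_sum]
    simp_rw [coeff_monomial]
    rw [Finset.sum_ite_eq']
    by_cases h1 : wt w m - e ≤ r
    · rw [if_pos h1]
      by_cases h2 : m ∈ F.support
      · rw [if_pos (Finset.mem_filter.2 ⟨h2, h1⟩)]
      · rw [if_neg fun h => h2 (Finset.mem_filter.1 h).1, notMem_support_iff.1 h2]
    · rw [if_neg h1]
      have h2 : m ∉ F.support.filter fun m => wt w m - e ≤ r := fun h =>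
        h1 (Finset.mem_filter.1 h).2
      exact if_neg h2
  have hQ₁ : QF Q F₁ := fun m hm => by
    rw [hc] at hm
    split_ifs at hm with h
    · exact hQ m hm
    · exact absurd rfl hm
  have hQ₂ : QF Q (F - F₁) := hQ.sub hQ₁
  have hfil : Fil v w e F₁ := fun m => by
    rw [hc]
    split_ifs with h
    · have := hF m
      rwa [min_eq_right h] at this
    · exact fun h => absurd rfl h
  have hge : ∀ m, v.Ge r (coeff m (F - F₁)) := fun m => by
    rw [coeff_sub, hc]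
    split_ifs with h
    · rw [sub_self]
      exact fun h => absurd rfl h
    · rw [sub_zero]
      have := hF m
      rwa [min_eq_left (le_of_not_ge h)] at this
  have e1 : dt d t F = dt d t F₁ + dt d t (F - F₁) := by
    rw [← dt_add]
    congr 1
    ring
  rw [e1, coeff_add]
  exact ((dt_fil d hk hA hd ht htw hQ₁ hfil g).mono (min_le_right _ _)).add
    ((dt_ge d hk hA hd ht hQ₂ hge g).mono (min_le_left _ _))

/-- **The near lemma**: `F` is near to `E(s, c + t(s))`, `d E = 0`. -/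
theorem dt_near (hk : Ctx0 k v) (hA : AdmE S₀ C₀ Q)
    (hd : ∀ (y : Ω) (c : ℝ), v.Ge c y → v.Ge c (d y)) {t : Polynomial Ω}
    (ht : ∀ j, Lim v C₀ 0 (t.coeff j)) {r : ℝ} {F : MvPolynomial (Fin 2) Ω} (hQ : QF Q F)
    (hF : ∀ ε : ℝ, 0 < ε → ∃ E : MvPolynomial (Fin 2) Ω, QF Q E ∧ (∀ g, d (coeff g E) = 0) ∧
      ∀ g, v.Ge (r - ε) (coeff g (F - shU t E))) (g : Ex) :
    v.Ge r (coeff g (dt d t F)) := by
  intro h0
  refine le_of_forall_pos_le_add fun η hη => ?_
  obtain ⟨E, hE, hdE, h1⟩ := hF η hη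
  have h2 := dt_ge d hk hA hd ht (hQ.sub (hE.shU hA t)) h1 g
  have h3 : dt d t (shU t E) = 0 := by
    have h4 : Dc d E = 0 := by
      ext m
      rw [coeff_Dc' (map_zero d), hdE, coeff_zero]
    rw [dt, shU_neg_shU, h4, map_zero]
  rw [dt_sub, h3, sub_zero] at h2
  linarith [h2 h0]

end wts

/-! ### The translate -/

theorem shU_C (t : Polynomial Ω) (a : Ω) : shU t (C a : MvPolynomial (Fin 2) Ω) = C a := by
  rw [← algebraMap_eq, AlgHom.commutes]

/-- **The twisted functional at the translate.** -/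
theorem dt_aeval (hA : AdmE S₀ C₀ Q) (d : Ω →ₗ[S₀] Ω) {x y : Ω} (hx : x ∈ C₀) (hy : y ∈ C₀)
    (τ : Ω →ₐ[k] Ω) (U : Polynomial Ω) {Z : MvPolynomial (Fin 2) Ω} (hZ : QF Q Z) :
    dt d (U.map (τ : Ω →+* Ω)) (aeval (Lp x (TWRB.psi τ x y U)) Z) =
      aeval (Lp x (TWRB.psi τ x y U)) (dt d U Z) := by
  classical
  set tr : Fin 2 → MvPolynomial (Fin 2) Ω := Lp x (Polynomial.C y) with htr
  have h1 : ∀ F : MvPolynomial (Fin 2) Ω,
      shU (-(U.map (τ : Ω →+* Ω))) (aeval (Lp x (TWRB.psi τ x y U)) F) = aeval tr (shU (-U) F) := by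
    intro F
    have h := back τ x y U 0 F
    rw [zero_sub, Polynomial.map_neg] at h
    rw [h]
    congr 2
    rw [htr, TWRB.psi]
    simp
  have h2 : ∀ F : MvPolynomial (Fin 2) Ω, shU (U.map (τ : Ω →+* Ω)) (aeval tr F) =
      aeval (Lp x (TWRB.psi τ x y U)) (shU U F) := by
    intro F
    have h := h1 (shU U F)
    rw [shU_neg_shU] at h
    rw [← h, shU_shU_neg]
  have hM : ∀ (i : Fin 2) (g : Ex), coeff g (tr i) ∈ C₀ := by
    intro i g
    fin_cases i
    · change coeff g (X 0 + C x) ∈ C₀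
      rw [coeff_add, coeff_X, coeff_C]
      refine add_mem ?_ ?_ <;> split_ifs
      exacts [one_mem _, zero_mem _, hx, zero_mem _]
    · change coeff g (X 1 + Polynomial.aeval (X 0) (Polynomial.C y)) ∈ C₀
      rw [Polynomial.aeval_C, algebraMap_eq, coeff_add, coeff_X, coeff_C]
      refine add_mem ?_ ?_ <;> split_ifs
      exacts [one_mem _, zero_mem _, hy, zero_mem _]
  rw [dt, h1, Dc_aeval_adm hA d hM (hZ.shU hA _), h2, dt]

end Pool.Agent.TWEC
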