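import Pool.Agent.Lib.TWEC.Tw

/-!
# RowB: the relations `(a*)`, `(b*)` without approximation of `U`

`U` has coefficients which are limits of `F`, `L = (X + s, c + Y + (τ U)(s) - U(X + s))`,
`ζ = Z_a + τ Z - Z(L)`; `Z` is near to `(θ~ - θ_0)(s, c + U(s))`, `θ~` over `F`.
* `astar_oo`: `(dt d U Z)(L) + dt d (τ U) ζ` is in `O_0`, `d` `F`-linear, `d F = 0`;
* `bstar_oo`: `Γ(L) + (D x) P(ζ) + e dt D (τ U) ζ + E` is in `O_0`, `D` linear over `F ^ p`.
-/

set_option autoImplicit false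

open MvPolynomial

namespace Pool.Agent.TWEC

open Pool.Agent.H15JM (RVal)
open Pool.Agent.D2 (Ctx0)
open Pool.Agent.TWM
open Pool.Agent.TWS (IsoE)
open Pool.Agent.TWLY
open Pool.Agent.TWCY
open Pool.Agent.TWCU
open Pool.Agent.TWRB
open Pool.Agent.TWLG64

universe u

variable {k Ω : Type u} [Field k] [Field Ω] [Algebra k Ω] {v : RVal Ω}
  {S₀ C₀ F : IntermediateField k Ω} {Q : Ex → Prop}

/-! ### Small lemmas -/

theorem ge_map {S : Ω →ₐ[k] Ω} (hS : IsoE v v S) {r : ℝ} {f : MvPolynomial (Fin 2) Ω}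
    (h : ∀ g, v.Ge r (coeff g f)) (g : Ex) :
    v.Ge r (coeff g (MvPolynomial.map (S : Ω →+* Ω) f)) := by
  rw [coeff_map]
  exact hS.ge_iff.2 (h g)

theorem ge_C {r : ℝ} {a : Ω} (h : v.Ge r a) (g : Ex) :
    v.Ge r (coeff g (C a : MvPolynomial (Fin 2) Ω)) := by
  classical
  rw [coeff_C]
  split_ifs
  · exact h
  · exact RVal.Ge.zero

theorem ge_addP {r : ℝ} {f f' : MvPolynomial (Fin 2) Ω} (h : ∀ g, v.Ge r (coeff g f))
    (h' : ∀ g, v.Ge r (coeff g f')) (g : Ex) : v.Ge r (coeff g (f + f')) := by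
  rw [coeff_add]
  exact (h g).add (h' g)

theorem ge_subP {r : ℝ} {f f' : MvPolynomial (Fin 2) Ω} (h : ∀ g, v.Ge r (coeff g f))
    (h' : ∀ g, v.Ge r (coeff g f')) (g : Ex) : v.Ge r (coeff g (f - f')) := by
  rw [coeff_sub]
  exact (h g).sub (h' g)

theorem ge_C_mul {a : Ω} (ha : v.Ge 0 a) {r : ℝ} {f : MvPolynomial (Fin 2) Ω}
    (h : ∀ g, v.Ge r (coeff g f)) (g : Ex) : v.Ge r (coeff g (C a * f)) := by
  rw [coeff_C_mul]
  have h1 := ha.mul (h g)
  rwa [zero_add] at h1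

theorem QF.map (S : Ω →ₐ[k] Ω) {f : MvPolynomial (Fin 2) Ω} (h : QF Q f) :
    QF Q (MvPolynomial.map (S : Ω →+* Ω) f) := by
  intro g hg
  refine h g fun h0 => hg ?_
  rw [coeff_map, h0]
  exact map_zero S

theorem QF.C (h0 : Q 0) (a : Ω) : QF Q (MvPolynomial.C a : MvPolynomial (Fin 2) Ω) := by
  classical
  intro g hg
  rw [coeff_C] at hg
  split_ifs at hg with h
  · rwa [← h]
  · exact absurd rfl hg

theorem QF.C_mul {f : MvPolynomial (Fin 2) Ω} (h : QF Q f) (a : Ω) :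
    QF Q (MvPolynomial.C a * f) := by
  intro g hg
  refine h g fun h0 => hg ?_
  rw [coeff_C_mul, h0, mul_zero]

theorem Dc_C (d : Ω →ₗ[S₀] Ω) (a : Ω) : Dc d (C a : MvPolynomial (Fin 2) Ω) = C (d a) := by
  classical
  ext g
  rw [coeff_Dc' (map_zero d), coeff_C, coeff_C]
  split_ifs
  · rfl
  · exact map_zero d

theorem dt_C (d : Ω →ₗ[S₀] Ω) (t : Polynomial Ω) (a : Ω) :
    dt d t (C a : MvPolynomial (Fin 2) Ω) = C (d a) := by
  rw [dt, shU_C, Dc_C, shU_C]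

/-- Multiples of polynomials over the scalars. -/
theorem Dc_C_mul_S (d : Ω →ₗ[S₀] Ω) (a : Ω) {f : MvPolynomial (Fin 2) Ω}
    (hf : ∀ g, coeff g f ∈ S₀) : Dc d (C a * f) = C (d a) * f := by
  ext g
  rw [coeff_Dc' (map_zero d), coeff_C_mul, coeff_C_mul]
  have h : a * coeff g f = (⟨coeff g f, hf g⟩ : S₀) • a := by
    rw [IntermediateField.smul_def, smul_eq_mul, mul_comm]
  rw [h, map_smul, IntermediateField.smul_def, smul_eq_mul, mul_comm]

/-- The real translation. -/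
theorem shU_tr (τ : Ω →ₐ[k] Ω) (x y : Ω) (U : Polynomial Ω) (f : MvPolynomial (Fin 2) Ω) :
    shU (U.map (τ : Ω →+* Ω)) (aeval (Lp x (Polynomial.C y)) f) =
      aeval (Lp x (TWRB.psi τ x y U)) (shU U f) := by
  have h := back τ x y 0 U f
  rw [sub_zero] at h
  rw [← h]
  congr 2
  rw [TWRB.psi]
  simp

/-! ### `(a*)` -/

/-- **(a\*)**, without approximation of `U`. -/
theorem astar_oo (hk : Ctx0 k v) {S : Ω →ₐ[k] Ω} (hS : IsoE v v S) (hSF : ∀ f ∈ F, S f ∈ F)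
    {x y Za : Ω} (hx : x ∈ F) (hy : y ∈ F) (hZa : Za ∈ F) {U : Polynomial Ω}
    (hU : ∀ j, Lim v F 0 (U.coeff j)) (d : Ω →ₗ[F] Ω)
    (hd : ∀ (y : Ω) (c : ℝ), v.Ge c y → v.Ge c (d y)) (hdF : ∀ f ∈ F, d f = 0)
    {Z : MvPolynomial (Fin 2) Ω}
    (hR : ∀ ε : ℝ, 0 < ε → ∃ E : MvPolynomial (Fin 2) Ω, (∀ g, coeff g E ∈ F) ∧
      ∀ g, v.Ge (-ε) (coeff g (Z - shU U E))) (g : Ex) :
    v.Ge 0 (coeff g (aeval (Lp x (TWRB.psi S x y U)) (dt d U Z) +
      dt d (U.map (S : Ω →+* Ω)) (zet S (Lp x (TWRB.psi S x y U)) Za Z))) := by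
  have hA : AdmE F F (fun _ => True) := admE_all le_rfl
  have hQ : ∀ f : MvPolynomial (Fin 2) Ω, QF (fun _ => True) f := fun _ _ _ => trivial
  rw [← dt_aeval hA d hx hy S U (hQ Z), ← dt_add]
  have e1 : aeval (Lp x (TWRB.psi S x y U)) Z + zet S (Lp x (TWRB.psi S x y U)) Za Z =
      C Za + MvPolynomial.map (S : Ω →+* Ω) Z := by
    unfold zet
    ring
  rw [e1]
  refine dt_near d hk hA hd (fun j => ?_) (hQ _) (fun ε hε => ?_) g
  · rw [Polynomial.coeff_map]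
    intro ε hε
    obtain ⟨c, hc, h1⟩ := hU j ε hε
    refine ⟨S c, hSF c hc, ?_⟩
    have h2 := hS.ge_iff.2 h1
    rw [map_sub] at h2
    exact h2
  · obtain ⟨E, hE, h1⟩ := hR ε hε
    refine ⟨C Za + MvPolynomial.map (S : Ω →+* Ω) E, hQ _, fun g => hdF _ ?_, ?_⟩
    · rw [coeff_add, coeff_map]
      refine add_mem (C_mem_PF hZa g) (hSF _ (hE g))
    · rw [map_add, shU_C, ← map_shU]
      have e2 : C Za + MvPolynomial.map (S : Ω →+* Ω) Z -
          (C Za + MvPolynomial.map (S : Ω →+* Ω) (shU U E)) =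
          MvPolynomial.map (S : Ω →+* Ω) (Z - shU U E) := by
        rw [map_sub]
        ring
      rw [e2]
      refine ge_map hS ?_
      simpa using h1

/-! ### A linear part -/

/-- The linear part, at `T = c + t(s)`. -/
noncomputable def linT (Ω : Type u) [Field Ω] [Algebra k Ω] (a : Ω) (e₁ e₂ : k) (t : Polynomial Ω) :
    MvPolynomial (Fin 2) Ω :=
  C a + C (algebraMap k Ω e₁) * X 0 +
    C (algebraMap k Ω e₂) * (X 1 + Polynomial.aeval (X 0) t)

theorem shU_linT (t δ : Polynomial Ω) (a : Ω) (e₁ e₂ : k) :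
    shU δ (linT Ω a e₁ e₂ t) = linT Ω a e₁ e₂ (δ + t) := by
  unfold linT
  rw [map_add, map_add, map_mul, map_mul, map_add, shU_C, shU_C, shU_C, shU_X0, shU_X1, shU_aeval,
    map_add]
  ring

theorem Dc_poly (d : Ω →ₗ[S₀] Ω) (f : Polynomial Ω) :
    Dc d (Polynomial.aeval (X 0 : MvPolynomial (Fin 2) Ω) f) =
      ∑ j ∈ f.support, C (d (f.coeff j)) * X 0 ^ j := by
  classical
  ext g
  rw [coeff_Dc' (map_zero d), Polynomial.aeval_eq_sum_range' (n := f.natDegree + 1) (by omega),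
    coeff_sum, coeff_sum, map_sum]
  have h1 : ∑ j ∈ f.support, coeff g (C (d (f.coeff j)) * X 0 ^ j : MvPolynomial (Fin 2) Ω) =
      ∑ j ∈ Finset.range (f.natDegree + 1),
        coeff g (C (d (f.coeff j)) * X 0 ^ j : MvPolynomial (Fin 2) Ω) := by
    refine Finset.sum_subset (fun j hj => ?_) fun j _ hj => ?_
    · rw [Finset.mem_range]
      exact Nat.lt_succ_of_le (Polynomial.le_natDegree_of_mem_supp j hj)
    · rw [Polynomial.notMem_support_iff.1 hj, map_zero, C_0, zero_mul, coeff_zero]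
  rw [h1]
  refine Finset.sum_congr rfl fun j _ => ?_
  rw [coeff_smul, smul_eq_mul, coeff_C_mul, coeff_X_pow]
  split_ifs
  · rw [mul_one, mul_one]
  · rw [mul_zero, mul_zero, map_zero]

/-- `d`, linear over the constants, on the linear part. -/
theorem Dc_linT (d : Ω →ₗ[S₀] Ω) (hd1 : d 1 = 0) (a : Ω) (e₁ e₂ : k) (t : Polynomial Ω) :
    Dc d (linT Ω a e₁ e₂ t) =
      C (d a) + C (algebraMap k Ω e₂) * Dc d (Polynomial.aeval (X 0) t) := by
  classical
  have hk1 : ∀ c : k, d (algebraMap k Ω c) = 0 := fun c => by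
    have h : algebraMap k Ω c = (⟨algebraMap k Ω c, S₀.algebraMap_mem c⟩ : S₀) • (1 : Ω) := by
      rw [IntermediateField.smul_def, smul_eq_mul, mul_one]
    rw [h, map_smul, hd1, smul_zero]
  have hX : ∀ (c : k) (i : Fin 2),
      Dc d (C (algebraMap k Ω c) * X i : MvPolynomial (Fin 2) Ω) = 0 := fun c i => by
    rw [Dc_C_mul_S d (algebraMap k Ω c) (f := X i) fun g => ?_, hk1, C_0, zero_mul]
    rw [coeff_X]
    split_ifs
    exacts [one_mem _, zero_mem _]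
  unfold linT
  rw [mul_add, Dc_add, Dc_add, Dc_add, Dc_C, hX, hX, add_zero, zero_add,
    Dc_C_mul (S₀.algebraMap_mem e₂)]

variable {w : Fin 2 → ℝ}

/-- **The near lemma with a linear part** (helper9's `dt_lin`). -/
theorem dt_lin (hk : Ctx0 k v) (hA : AdmE S₀ C₀ Q) (d : Ω →ₗ[S₀] Ω)
    (hd : ∀ (y : Ω) (c : ℝ), v.Ge c y → v.Ge c (d y)) (hd1 : d 1 = 0) {t : Polynomial Ω}
    (ht : ∀ j, Lim v C₀ 0 (t.coeff j)) {r : ℝ} (hr : r ≤ 0) {A : MvPolynomial (Fin 2) Ω}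
    (hQ : QF Q A) (a : Ω) (e₁ e₂ : k) (hF : ∀ g, v.Ge r (coeff g (A + linT Ω a e₁ e₂ t)))
    (g : Ex) : v.Ge r (coeff g (dt d t A + Dc d (linT Ω a e₁ e₂ t))) := by
  obtain ⟨N, hN⟩ : ∃ N : ℕ, ∀ m ∈ (A + linT Ω a e₁ e₂ t).support, m 1 ≤ N :=
    ⟨(A + linT Ω a e₁ e₂ t).support.sup fun m => m 1,
      fun m hm => Finset.le_sup (f := fun m : Ex => m 1) hm⟩
  have key : ∀ ε : ℝ, 0 < ε →
      v.Ge (r - (N + 1) * ε) (coeff g (dt d t A + Dc d (linT Ω a e₁ e₂ t))) := by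
    intro ε hε
    obtain ⟨f, hf, h1, -⟩ := exists_approx (ε := fun _ => ε) (fun _ => Or.inl hε) ht
    set δ := t - f with hδ
    have e1 : dt d t A = dt d δ A := by
      conv_lhs => rw [← sub_add_cancel t f]
      exact dt_congr d hA hf hQ
    have h2 : Fil v (![0, ε] : Fin 2 → ℝ) (N * ε - r) (A + linT Ω a e₁ e₂ t) := by
      intro m
      by_cases hm : m ∈ (A + linT Ω a e₁ e₂ t).support
      · refine (hF m).mono ?_
        have h3 : ((m 1 : ℕ) : ℝ) ≤ N := by exact_mod_cast hN m hm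
        simp only [wt, Matrix.cons_val_zero, Matrix.cons_val_one]
        nlinarith
      · rw [notMem_support_iff.1 hm]
        exact RVal.Ge.zero
    have hδ1 : ∀ j : ℕ, v.Ge (j * (![0, ε] : Fin 2 → ℝ) 0 - (![0, ε] : Fin 2 → ℝ) 1)
        (δ.coeff j) := fun j => by
      simpa using h1 j
    have hδ2 : ∀ j : ℕ, v.Ge (j * (![0, ε] : Fin 2 → ℝ) 0 - (![0, ε] : Fin 2 → ℝ) 1)
        ((-δ).coeff j) := fun j => by
      rw [Polynomial.coeff_neg]
      exact (hδ1 j).neg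
    have h4 := shU_fil hk hδ1 (Dc_fil d hd (shU_fil hk hδ2 h2)) g
    have e2 : shU δ (Dc d (shU (-δ) (A + linT Ω a e₁ e₂ t))) =
        dt d δ A + Dc d (linT Ω a e₁ e₂ f) := by
      rw [map_add, Dc_add, map_add, shU_linT, Dc_linT d hd1, Dc_linT d hd1, map_add, shU_C,
        map_mul, shU_C]
      have e3 : -δ + t = f := by
        rw [hδ]
        ring
      have e6 : shU δ (Dc d (Polynomial.aeval (X 0 : MvPolynomial (Fin 2) Ω) f)) =
          Dc d (Polynomial.aeval (X 0 : MvPolynomial (Fin 2) Ω) f) := by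
        rw [Dc_poly, map_sum]
        refine Finset.sum_congr rfl fun j _ => ?_
        rw [map_mul, map_pow, shU_C, shU_X0]
      rw [e3, e6]
      rfl
    rw [e2] at h4
    have e4 : dt d t A + Dc d (linT Ω a e₁ e₂ t) = (dt d δ A + Dc d (linT Ω a e₁ e₂ f)) +
        C (algebraMap k Ω e₂) * Dc d (Polynomial.aeval (X 0) δ) := by
      have e5 : Polynomial.aeval (X 0 : MvPolynomial (Fin 2) Ω) t =
          Polynomial.aeval (X 0) f + Polynomial.aeval (X 0) δ := by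
        rw [← map_add, hδ]
        congr 1
        ring
      rw [e1, Dc_linT d hd1, Dc_linT d hd1, e5, Dc_add]
      ring
    rw [e4, coeff_add]
    refine RVal.Ge.add (h4.mono ?_) ?_
    · simp only [wt, Matrix.cons_val_zero, Matrix.cons_val_one]
      have : (0 : ℝ) ≤ (g 1 : ℝ) := Nat.cast_nonneg _
      nlinarith
    · have h5 : ∀ m, v.Ge (-ε) (coeff m (Polynomial.aeval (X 0 : MvPolynomial (Fin 2) Ω) δ)) := by
        classical
        intro m
        rw [Polynomial.aeval_eq_sum_range, coeff_sum]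
        refine RVal.Ge.sum _ _ fun j _ => ?_
        rw [coeff_smul, smul_eq_mul, coeff_X_pow]
        split_ifs
        · rw [mul_one]
          exact h1 j
        · rw [mul_zero]
          exact RVal.Ge.zero
      have h6 : v.Ge (-ε) (coeff g (C (algebraMap k Ω e₂) *
          Dc d (Polynomial.aeval (X 0 : MvPolynomial (Fin 2) Ω) δ))) := by
        refine ge_C_mul (hk.ge e₂) (fun m => ?_) g
        rw [coeff_Dc' (map_zero d)]
        exact hd _ _ (h5 m)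
      refine h6.mono ?_
      have : (0 : ℝ) ≤ N := Nat.cast_nonneg _
      nlinarith
  intro h0
  refine le_of_forall_pos_le_add fun η hη => ?_
  have h1 := key (η / (N + 1)) (by positivity) h0
  have h2 : ((N : ℝ) + 1) * (η / (N + 1)) = η := by
    field_simp
  linarith

/-! ### `(b*)` -/

section bstar

variable {p : ℕ} [hp : Fact p.Prime] [CharP Ω p] [CharP k p] {κ : ℕ → k} {t : ℕ}

omit hp [CharP Ω p] [CharP k p] in
theorem ge_PPP (hk : Ctx0 k v) {ε : ℝ} (hε : 0 < ε) (hp1 : 1 ≤ p)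
    {f : MvPolynomial (Fin 2) Ω} (hf : ∀ g, v.Ge (-ε) (coeff g f)) (g : Ex) :
    v.Ge (-(p ^ (t + 1) * ε)) (coeff g (PP p κ t f)) := by
  unfold PP
  rw [coeff_sum]
  refine RVal.Ge.sum _ _ fun i hi => ?_
  rw [IsScalarTower.algebraMap_apply k Ω (MvPolynomial (Fin 2) Ω), algebraMap_eq, coeff_C_mul]
  have h0 : Fil v (fun _ => (0 : ℝ)) ε f := fun m => by
    rw [wt_w0, zero_sub]
    exact hf m
  have h1 := h0.pow hk (p ^ (i + 1)) g
  rw [wt_w0, zero_sub] at h1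
  have h2 := (hk.ge (κ i)).mul h1
  refine h2.mono ?_
  have h3 : ((p ^ (i + 1) : ℕ) : ℝ) ≤ (p : ℝ) ^ (t + 1) := by
    push_cast
    refine pow_le_pow_right₀ (by exact_mod_cast hp1) ?_
    rw [Finset.mem_range] at hi
    omega
  nlinarith

omit [CharP k p] in
/-- `PP f` has exponents divisible by `p` and coefficients in `S₀`, for `f` over `F`. -/
theorem PP_coeff (hSp : ∀ c ∈ F, c ^ p ∈ S₀) (f : MvPolynomial (Fin 2) Ω) :
    QF (fun m => ∀ i, p ∣ m i) (PP p κ t f) ∧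
      ((∀ g, coeff g f ∈ F) → ∀ g, coeff g (PP p κ t f) ∈ S₀) := by
  have e : ∀ i, f ^ p ^ (i + 1) = (f ^ p ^ i) ^ p := fun i => by rw [pow_succ, pow_mul]
  constructor
  · intro g hg
    unfold PP at hg
    rw [coeff_sum] at hg
    obtain ⟨i, -, h1⟩ := Finset.exists_ne_zero_of_sum_ne_zero hg
    rw [IsScalarTower.algebraMap_apply k Ω (MvPolynomial (Fin 2) Ω), algebraMap_eq, coeff_C_mul,
      e] at h1
    exact (coeff_pow_p (k := k) p _ g).1 (right_ne_zero_of_mul h1)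
  · intro hf g
    unfold PP
    rw [coeff_sum]
    refine sum_mem fun i _ => ?_
    rw [IsScalarTower.algebraMap_apply k Ω (MvPolynomial (Fin 2) Ω), algebraMap_eq, coeff_C_mul, e]
    refine mul_mem (S₀.algebraMap_mem _) ?_
    obtain ⟨c, hc, h1⟩ := (coeff_pow_p (k := k) p (f ^ p ^ i) g).2 F
      fun g' => mem_PF.1 (pow_mem (show f ∈ PF F from hf) _) g'
    rw [h1]
    exact hSp c hc

/-- The polynomial in front of `L`. -/
noncomputable def Gm (D : Ω → Ω) (U : Polynomial Ω) (e e₂ : k) (x : Ω) (p : ℕ) (κ : ℕ → k) (t : ℕ)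
    (Z A : MvPolynomial (Fin 2) Ω) (b a₀ : Ω) : MvPolynomial (Fin 2) Ω :=
  C (algebraMap k Ω e) * dt D U Z + C (D x) * PP p κ t Z + shU U (Dc D A) +
    C (algebraMap k Ω e₂) * Dc D (Polynomial.aeval (X 0) U) + C (D b - D a₀)

/-- The error term: `e₁ D X + e₂ (D Y + D(τ U)(s) - (D U)(X + s))`. -/
noncomputable def Er (D : Ω → Ω) (τ : Ω →ₐ[k] Ω) (X' Y' : Ω) (U : Polynomial Ω) (e₁ e₂ : k) :
    MvPolynomial (Fin 2) Ω :=
  C (algebraMap k Ω e₁ * D X' + algebraMap k Ω e₂ * D Y') + C (algebraMap k Ω e₂) *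
    (Dc D (Polynomial.aeval (X 0) (U.map (τ : Ω →+* Ω))) -
      aeval (Lp X' (TWRB.psi τ X' Y' U)) (Dc D (Polynomial.aeval (X 0) U)))

omit [CharP k p] in
/-- **(b\*)**, without approximation of `U`, all cases. The tie polynomial is
`e z + x P(z) + A + b + e₁ s + e₂ T` at `T = c + U(s)`. -/
theorem bstar_oo [Infinite k] (hk : Ctx0 k v) {S : Ω →ₐ[k] Ω} (hS : IsoE v v S)
    (hSF : ∀ f ∈ F, S f ∈ F) (hSp : ∀ c ∈ F, c ^ p ∈ S₀) {X' Y' Za x b a₀ : Ω} (hX : X' ∈ F)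
    (hY : Y' ∈ F) (hSx : S x = x) {e e₁ e₂ : k}
    (hSb : S b = b + algebraMap k Ω e₁ * X' + algebraMap k Ω e₂ * Y')
    {U : Polynomial Ω} (hU : ∀ j, Lim v F 0 (U.coeff j)) (D : Ω →ₗ[S₀] Ω)
    (hD : ∀ (y : Ω) (c : ℝ), v.Ge c y → v.Ge c (D y)) (hD1 : D 1 = 0) (hDx : v.Ge 0 (D x))
    {Z A : MvPolynomial (Fin 2) Ω} (hZ : e ≠ 0 → QF (fun m => ∀ i, p ∣ m i) Z)
    (hAQ : QF (fun m => ∀ i, p ∣ m i) A)
    (hSA : MvPolynomial.map (S : Ω →+* Ω) A = aeval (Lp X' (Polynomial.C Y')) A)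
    (htie : ∀ ε : ℝ, 0 < ε → ∃ (θ h : MvPolynomial (Fin 2) Ω) (θ₀ h₀ : Ω),
      (∀ g, coeff g θ ∈ F) ∧ (∀ g, coeff g h ∈ F) ∧ θ₀ ∈ F ∧ h₀ ∈ F ∧
      (e ≠ 0 → QF (fun m => ∀ i, p ∣ m i) θ) ∧ v.Ge (-ε) (S θ₀ - θ₀ - Za) ∧
      (∀ g, v.Ge (-ε) (coeff g (Z - (shU U θ - C θ₀)))) ∧
      (∀ g, v.Ge (-ε) (coeff g (shU U (C (algebraMap k Ω e) * θ + C x * PP p κ t θ + A - h ^ p) +
        linT Ω b e₁ e₂ U))) ∧
      v.Ge (-ε) (algebraMap k Ω e * θ₀ + x * PP p κ t θ₀ + a₀ - h₀ ^ p)) (g : Ex) :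
    v.Ge 0 (coeff g (aeval (Lp X' (TWRB.psi S X' Y' U)) (Gm D U e e₂ x p κ t Z A b a₀) +
      C (D x) * PP p κ t (zet S (Lp X' (TWRB.psi S X' Y' U)) Za Z) +
      C (algebraMap k Ω e) *
        dt D (U.map (S : Ω →+* Ω)) (zet S (Lp X' (TWRB.psi S X' Y' U)) Za Z) +
      Er D S X' Y' U e₁ e₂)) := by
  classical
  set L := Lp X' (TWRB.psi S X' Y' U) with hL
  set V := U.map (S : Ω →+* Ω) with hV
  set ζ := zet S L Za Z with hζ
  set Q : Ex → Prop := fun m => ∀ i, p ∣ m i with hQdef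
  have hA : AdmE S₀ F Q := admE_p p hSp
  have hQ0 : Q 0 := fun i => by
    rw [Finsupp.coe_zero, Pi.zero_apply]
    exact dvd_zero p
  have hVl : ∀ j, Lim v F 0 (V.coeff j) := fun j => by
    rw [hV, Polynomial.coeff_map]
    intro ε hε
    obtain ⟨c, hc, h1⟩ := hU j ε hε
    refine ⟨S c, hSF c hc, ?_⟩
    have h2 := hS.ge_iff.2 h1
    rw [map_sub] at h2
    exact h2
  have hp1 : (1 : ℝ) ≤ (p : ℝ) ^ (t + 1) := one_le_pow₀ (by exact_mod_cast hp.out.one_lt.le)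
  have hp0 : (0 : ℝ) < (p : ℝ) ^ (t + 1) := by linarith
  refine ge_zero_of_eps' hp0 fun ε hε => ?_
  obtain ⟨θ, h, θ₀, h₀, hθ, hh, hθ₀, hh₀, hθQ, h1, h2, h3, h4⟩ := htie ε hε
  have hle : -((p : ℝ) ^ (t + 1) * ε) ≤ -ε := by nlinarith
  set ac : MvPolynomial (Fin 2) Ω →+* MvPolynomial (Fin 2) Ω :=
    MvPolynomial.map (S : Ω →+* Ω) with hac
  have acC : ∀ a, ac (C a) = C (S a) := fun a => by
    rw [hac, map_C]
    rfl
  -- the tie after `τ`
  set θ' := ac θ with hθ'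
  set h' := ac h with hh'
  have hθ'F : ∀ g, coeff g θ' ∈ F := fun g => by
    rw [hθ', hac, coeff_map]
    exact hSF _ (hθ g)
  have hh'F : ∀ g, coeff g h' ∈ F := fun g => by
    rw [hh', hac, coeff_map]
    exact hSF _ (hh g)
  have hPPm : ac (PP p κ t θ) = PP p κ t θ' := by
    unfold PP
    rw [map_sum]
    refine Finset.sum_congr rfl fun i _ => ?_
    rw [map_mul, map_pow, IsScalarTower.algebraMap_apply k Ω (MvPolynomial (Fin 2) Ω),
      algebraMap_eq, acC, AlgHom.commutes]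
  set A' : MvPolynomial (Fin 2) Ω := C (algebraMap k Ω e) * θ' + C x * PP p κ t θ' +
    aeval (Lp X' (Polynomial.C Y')) A - h' ^ p with hA'
  set b' := b + algebraMap k Ω e₁ * X' + algebraMap k Ω e₂ * Y' with hb'
  have hlin : ac (linT Ω b e₁ e₂ U) = linT Ω b' e₁ e₂ V := by
    have hpol : ac (Polynomial.aeval (X 0 : MvPolynomial (Fin 2) Ω) U) =
        Polynomial.aeval (X 0) V := by
      have h5 := map_shU S U (X 1 : MvPolynomial (Fin 2) Ω)
      rw [shU_X1, map_add, map_X, shU_X1] at h5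
      exact add_left_cancel h5
    unfold linT
    rw [map_add, map_add, map_mul, map_mul, map_add, hpol, acC, acC, acC, hSb, AlgHom.commutes,
      AlgHom.commutes, hac, map_X, map_X]
  have r1 : ∀ g, v.Ge (-ε) (coeff g (shU V A' + linT Ω b' e₁ e₂ V)) := by
    have h5 := ge_map hS h3
    intro g
    have h6 := h5 g
    rw [map_add, map_shU] at h6
    rw [← hac] at h6
    rw [hlin, map_sub, map_add, map_add, map_mul, map_mul, map_pow, hPPm, acC, acC,
      AlgHom.commutes, hSx] at h6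
    rw [hac, hSA] at h6
    exact h6
  have qθ : QF Q (C (algebraMap k Ω e) * θ') := by
    by_cases h0 : e = 0
    · rw [h0, map_zero, C_0, zero_mul]
      intro g hg
      exact absurd (coeff_zero g) hg
    · exact ((hθQ h0).map S).C_mul _
  have qh : QF Q (h' ^ p) := fun g hg => (coeff_pow_p (k := k) p h' g).1 hg
  have qA' : QF Q A' :=
    ((qθ.add ((PP_coeff (S₀ := S₀) hSp θ').1.C_mul x)).add (hAQ.map_aeval hA _)).sub qh
  have r2 := dt_lin hk hA D hD hD1 hVl (neg_nonpos.2 hε.le) (qA'.shU hA V) b' e₁ e₂ r1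
  -- its value
  have hh0 : Dc D (h' ^ p) = 0 := by
    have h5 : ∀ g, coeff g (h' ^ p) ∈ S₀ := fun g => by
      obtain ⟨c, hc, h6⟩ := (coeff_pow_p (k := k) p h' g).2 F hh'F
      rw [h6]
      exact hSp c hc
    have h6 := Dc_C_mul_S D 1 h5
    rw [C_1, one_mul, hD1, C_0, zero_mul] at h6
    exact h6
  have e1 : dt D V (shU V A') = C (algebraMap k Ω e) * shU V (Dc D θ') +
      C (D x) * PP p κ t (shU V θ') + aeval L (shU U (Dc D A)) := by
    rw [dt, shU_neg_shU, hA', sub_eq_add_neg, Dc_add, Dc_add, Dc_add,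
      Dc_C_mul (S₀.algebraMap_mem e), Dc_C_mul_S D x ((PP_coeff hSp θ').2 hθ'F)]
    have e2 : Dc D (-(h' ^ p)) = 0 := by
      have h5 := Dc_add D (h' ^ p) (-(h' ^ p))
      rw [add_neg_cancel, hh0, zero_add] at h5
      rw [← h5]
      ext g
      rw [coeff_Dc' (map_zero D), coeff_zero, map_zero]
    have hM : ∀ (i : Fin 2) (g : Ex), coeff g (Lp X' (Polynomial.C Y') i) ∈ F := by
      intro i g
      fin_cases i
      · exact mem_PF.1 (add_mem (X_mem_PF F 0) (C_mem_PF hX)) g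
      · refine mem_PF.1 (add_mem (X_mem_PF F 1) ?_) g
        rw [Polynomial.aeval_C, algebraMap_eq]
        exact C_mem_PF hY
    rw [e2, add_zero, Dc_aeval_adm hA D hM hAQ, map_add, map_add, map_mul, map_mul, shU_C, shU_C,
      hL, ← shU_tr]
    congr 2
    congr 1
    exact PP_map ((shU V).restrictScalars k) θ'
  -- the displacement
  set R := shU V θ' - (aeval L Z + ζ + C θ₀) with hR
  have e3 : aeval L Z + ζ = C Za + ac Z := by
    rw [hζ, hac]
    unfold zet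
    ring
  have r3 : ∀ g, v.Ge (-ε) (coeff g R) := by
    have e4 : R = C (S θ₀ - θ₀ - Za) - ac (Z - (shU U θ - C θ₀)) := by
      have e5 : ac (shU U θ) = shU V θ' := map_shU S U θ
      have e9 : ac (Z - (shU U θ - C θ₀)) = ac Z - (shU V θ' - C (S θ₀)) := by
        rw [map_sub, map_sub, e5, acC]
      rw [hR, e3, e9, C_sub, C_sub]
      ring
    rw [e4]
    exact ge_subP (ge_C h1) (ge_map hS h2)
  have e6 : shU V θ' = aeval L Z + ζ + C θ₀ + R := by
    rw [hR]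
    ring
  have r4 : ∀ g, v.Ge (-(p ^ (t + 1) * ε)) (coeff g (C (D x) * PP p κ t R)) :=
    ge_C_mul hDx (ge_PPP hk hε hp.out.one_lt.le r3)
  have r5 : ∀ g, v.Ge (-ε) (coeff g (C (algebraMap k Ω e) * dt D V R)) := by
    by_cases h0 : e = 0
    · intro g
      rw [h0, map_zero, C_0, zero_mul, coeff_zero]
      exact RVal.Ge.zero
    · refine ge_C_mul (hk.ge e) (dt_ge D hk hA hD hVl ?_ r3)
      have qZ := hZ h0
      refine (((hθQ h0).map S).shU hA V).sub (QF.add ?_ (QF.C hQ0 _))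
      rw [e3]
      exact (QF.C hQ0 _).add (qZ.map S)
  have e7 : C (algebraMap k Ω e) * shU V (Dc D θ') = C (algebraMap k Ω e) *
      (aeval L (dt D U Z) + dt D V ζ + C (D θ₀) + dt D V R) := by
    by_cases h0 : e = 0
    · rw [h0, map_zero, C_0, zero_mul, zero_mul]
    · have h5 : shU V (Dc D θ') = dt D V (shU V θ') := by rw [dt, shU_neg_shU]
      rw [h5, e6, dt_add, dt_add, dt_add, dt_C, hL, hV, dt_aeval hA D hX hY S U (hZ h0)]
  -- the constants
  have r6 : v.Ge (-ε) (algebraMap k Ω e * D θ₀ + D x * PP p κ t θ₀ + D a₀) := by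
    have h5 := hD _ _ h4
    have hPS : PP p κ t θ₀ ∈ S₀ := by
      unfold PP
      refine sum_mem fun i _ => mul_mem (S₀.algebraMap_mem _) ?_
      rw [pow_succ, pow_mul]
      exact hSp _ (pow_mem hθ₀ _)
    have h6 : D (x * PP p κ t θ₀) = D x * PP p κ t θ₀ := by
      have h7 : x * PP p κ t θ₀ = (⟨_, hPS⟩ : S₀) • x := by
        rw [IntermediateField.smul_def, smul_eq_mul, mul_comm]
      rw [h7, map_smul, IntermediateField.smul_def, smul_eq_mul, mul_comm]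
    have h7 : D (h₀ ^ p) = 0 := by
      have h8 : h₀ ^ p = (⟨_, hSp _ hh₀⟩ : S₀) • (1 : Ω) := by
        rw [IntermediateField.smul_def, smul_eq_mul, mul_one]
      rw [h8, map_smul, hD1, smul_zero]
    have h8 : D (algebraMap k Ω e * θ₀) = algebraMap k Ω e * D θ₀ := by
      have h9 : algebraMap k Ω e * θ₀ = (⟨_, S₀.algebraMap_mem e⟩ : S₀) • θ₀ := by
        rw [IntermediateField.smul_def, smul_eq_mul]
      rw [h9, map_smul, IntermediateField.smul_def, smul_eq_mul]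
    rwa [map_sub, map_add, map_add, h6, h7, h8, sub_zero] at h5
  -- all together
  have e8 : aeval L (Gm D U e e₂ x p κ t Z A b a₀) + C (D x) * PP p κ t ζ +
      C (algebraMap k Ω e) * dt D V ζ + Er D S X' Y' U e₁ e₂ =
      (dt D V (shU V A') + Dc D (linT Ω b' e₁ e₂ V)) -
        C (algebraMap k Ω e * D θ₀ + D x * PP p κ t θ₀ + D a₀) -
        C (D x) * PP p κ t R - C (algebraMap k Ω e) * dt D V R := by
    have hDb : D b' = D b + algebraMap k Ω e₁ * D X' + algebraMap k Ω e₂ * D Y' := by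
      have h9 : ∀ (c : k) (y : Ω), D (algebraMap k Ω c * y) = algebraMap k Ω c * D y := by
        intro c y
        have h10 : algebraMap k Ω c * y = (⟨_, S₀.algebraMap_mem c⟩ : S₀) • y := by
          rw [IntermediateField.smul_def, smul_eq_mul]
        rw [h10, map_smul, IntermediateField.smul_def, smul_eq_mul]
      rw [hb', map_add, map_add, h9, h9]
    have hLC : ∀ a : Ω, aeval L (C a : MvPolynomial (Fin 2) Ω) = C a := fun a => by
      rw [aeval_C, algebraMap_eq]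
    have hPC : PP p κ t (C θ₀ : MvPolynomial (Fin 2) Ω) = C (PP p κ t θ₀) := by
      unfold PP
      rw [map_sum]
      refine Finset.sum_congr rfl fun i _ => ?_
      rw [IsScalarTower.algebraMap_apply k Ω (MvPolynomial (Fin 2) Ω), algebraMap_eq, map_mul,
        map_pow]
    have hPL : PP p κ t (aeval L Z) = aeval L (PP p κ t Z) := PP_aeval Z
    rw [e1, e7, e6, PP_add, PP_add, PP_add, hPC, hPL, Dc_linT D hD1, hDb, Gm, Er, map_add, map_add,
      map_add, map_add, map_mul, map_mul, map_mul, hLC, hLC, hLC, hLC, ← hL, ← hV]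
    simp only [map_add, map_mul, map_sub]
    ring
  rw [e8]
  refine ge_subP (ge_subP (ge_subP (fun g => (r2 g).mono hle) (fun g => (ge_C r6 g).mono hle)) r4)
    (fun g => (r5 g).mono hle) g

omit [CharP k p] in
/-- The polynomial in front of `L` is integral. -/
theorem gm_ge [Infinite k] (hk : Ctx0 k v) (hSp : ∀ c ∈ F, c ^ p ∈ S₀) {x b a₀ : Ω} {e e₁ e₂ : k}
    {U : Polynomial Ω} (hU : ∀ j, Lim v F 0 (U.coeff j)) (D : Ω →ₗ[S₀] Ω)
    (hD : ∀ (y : Ω) (c : ℝ), v.Ge c y → v.Ge c (D y)) (hD1 : D 1 = 0) (hDx : v.Ge 0 (D x))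
    {Z A : MvPolynomial (Fin 2) Ω} (hZ : e ≠ 0 → QF (fun m => ∀ i, p ∣ m i) Z)
    (hAQ : QF (fun m => ∀ i, p ∣ m i) A)
    (htie : ∀ ε : ℝ, 0 < ε → ∃ (θ h : MvPolynomial (Fin 2) Ω) (θ₀ h₀ : Ω),
      (∀ g, coeff g θ ∈ F) ∧ (∀ g, coeff g h ∈ F) ∧ θ₀ ∈ F ∧ h₀ ∈ F ∧
      (e ≠ 0 → QF (fun m => ∀ i, p ∣ m i) θ) ∧
      (∀ g, v.Ge (-ε) (coeff g (Z - (shU U θ - C θ₀)))) ∧
      (∀ g, v.Ge (-ε) (coeff g (shU U (C (algebraMap k Ω e) * θ + C x * PP p κ t θ + A - h ^ p) +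
        linT Ω b e₁ e₂ U))) ∧
      v.Ge (-ε) (algebraMap k Ω e * θ₀ + x * PP p κ t θ₀ + a₀ - h₀ ^ p)) (g : Ex) :
    v.Ge 0 (coeff g (Gm D U e e₂ x p κ t Z A b a₀)) := by
  set S : Ω →ₐ[k] Ω := AlgHom.id k Ω with hSdef
  have hS : IsoE v v S := ⟨fun a _ => rfl⟩
  have hmap : ∀ f : MvPolynomial (Fin 2) Ω, MvPolynomial.map (S : Ω →+* Ω) f = f := fun f => by
    ext m
    rw [coeff_map]
    rfl
  have hmapU : U.map (S : Ω →+* Ω) = U := by
    ext m
    rw [Polynomial.coeff_map]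
    rfl
  have hpsi : TWRB.psi S 0 0 U = 0 := by
    rw [TWRB.psi, hmapU]
    simp
  have hL : ∀ f : MvPolynomial (Fin 2) Ω, aeval (Lp 0 (0 : Polynomial Ω)) f = f := fun f => by
    have h : (aeval (Lp 0 (0 : Polynomial Ω)) : MvPolynomial (Fin 2) Ω →ₐ[Ω] _) =
        AlgHom.id Ω _ := by
      refine MvPolynomial.algHom_ext fun i => ?_
      fin_cases i <;> simp [Lp]
    rw [h]
    rfl
  have hL0 : (Lp 0 (Polynomial.C 0) : Fin 2 → MvPolynomial (Fin 2) Ω) = Lp 0 0 := by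
    rw [Polynomial.C_0]
  have h1 := bstar_oo (S := S) (X' := 0) (Y' := 0) (Za := 0) hk hS (fun f hf => hf) hSp
    (zero_mem F) (zero_mem F) rfl (e := e) (e₁ := e₁) (e₂ := e₂) (b := b) (by simp [hSdef])
    hU D hD hD1 hDx hZ hAQ (by rw [hmap, hL0, hL])
    (fun ε hε => by
      obtain ⟨θ, h, θ₀, h₀, a1, a2, a3, a4, a5, a6, a7, a8⟩ := htie ε hε
      refine ⟨θ, h, θ₀, h₀, a1, a2, a3, a4, a5, ?_, a6, a7, a8⟩
      have : S θ₀ - θ₀ - 0 = 0 := by simp [hSdef]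
      rw [this]
      exact RVal.Ge.zero) g
  have hz : zet S (Lp 0 (0 : Polynomial Ω)) 0 Z = 0 := by
    unfold zet
    rw [hmap, hL, C_0]
    ring
  have hE : Er D S 0 0 U e₁ e₂ = 0 := by
    unfold Er
    rw [hmapU, hpsi, hL]
    simp
  have hd0 : dt D (U.map (S : Ω →+* Ω)) (0 : MvPolynomial (Fin 2) Ω) = 0 := dt_zero' D _
  have hP0 : PP p κ t (0 : MvPolynomial (Fin 2) Ω) = 0 := by
    unfold PP
    refine Finset.sum_eq_zero fun i _ => ?_
    rw [zero_pow (pow_ne_zero _ hp.out.ne_zero), mul_zero]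
  rw [hpsi, hL, hz, hd0, hP0, hE] at h1
  simpa using h1

end bstar

end Pool.Agent.TWEC
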