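import Pool.Agent.Lib.TWEC.Tw2

/-!
# RowB: the relations `(a*)`, `(b*)` in the words of the frame

`T c` fixes `W`, `w 0 ↦ w 0 + c 0`, `w 1 ↦ w 1 + U(c 0) + c 1`, `z ↦ z + Z(c)` modulo `O_0`; the tie is
given by polynomials over `W`; `S` is a motion.
* `jet_oo`: `Z` is near to `E(s, c + U(s))`, `E` over `F`; `tie_oo`: the hypothesis of `bstar_oo`;
* `astar_fr`, `bstar_fr`, `gm_fr`: `(a*)`, `(b*)` and the integrality.
-/

set_option autoImplicit false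

open MvPolynomial

namespace Pool.Agent.TWEC

open Pool.Agent.H15JM (RVal)
open Pool.Agent.D2 (Ctx0)
open Pool.Agent.TWM
open Pool.Agent.TWS (IsoE)
open Pool.Agent.TWLY
open Pool.Agent.TWCY
open Pool.Agent.TWCU
open Pool.Agent.TWRB
open Pool.Agent.TWPL (ptk)
open Pool.Agent.TWLG64

universe u

variable {k Ω : Type u} [Field k] [Field Ω] [Algebra k Ω] {v : RVal Ω}
  {W F S₀ : IntermediateField k Ω} {w : Fin 2 → Ω} {z x : Ω} {T : (Fin 2 → k) → Ω →ₐ[k] Ω}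
  {U : Polynomial Ω} {Z Pa : MvPolynomial (Fin 2) Ω}

/-- The frame, as used here. -/
structure FrO (v : RVal Ω) (W F : IntermediateField k Ω) (w : Fin 2 → Ω) (z : Ω)
    (T : (Fin 2 → k) → Ω →ₐ[k] Ω) (U : Polynomial Ω) (Z : MvPolynomial (Fin 2) Ω) : Prop where
  c0 : Ctx0 k v
  iso : ∀ c, IsoE v v (T c)
  fix : ∀ c, ∀ f ∈ W, T c f = f
  Tw : ∀ c, T c (w 0) = w 0 + algebraMap k Ω (c 0)
  Tu : ∀ c, T c (w 1) = w 1 + U.eval (algebraMap k Ω (c 0)) + algebraMap k Ω (c 1)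
  le : W ≤ F
  wF : ∀ i, w i ∈ F
  Ul : ∀ j, Lim v F 0 (U.coeff j)
  jet : ∀ c, v.Ge 0 (T c z - z - eval (pt c) Z)

/-- The tie, by polynomials over `W`. -/
def TiO (p : ℕ) (v : RVal Ω) (W : IntermediateField k Ω) (w : Fin 2 → Ω) (x z : Ω) (e : k)
    (κ : ℕ → k) (t : ℕ) (Pa : MvPolynomial (Fin 2) Ω) : Prop :=
  ∀ ε : ℝ, 0 < ε → ∃ θ h : MvPolynomial (Fin 2) Ω, (∀ g, coeff g θ ∈ W) ∧
    (∀ g, coeff g h ∈ W) ∧ (e ≠ 0 → QF (fun m => ∀ i, p ∣ m i) θ) ∧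
    v.Ge (-ε) (z - eval w θ) ∧
    v.Ge (-ε) (eval w (C (algebraMap k Ω e) * θ + C x * PP p κ t θ + Pa - h ^ p))

/-- The motion, as used here. -/
structure MoO (v : RVal Ω) (F : IntermediateField k Ω) (w : Fin 2 → Ω) (z : Ω)
    (S : Ω →ₐ[k] Ω) (a b Za : Ω) : Prop where
  iso : IsoE v v S
  map : ∀ f ∈ F, S f ∈ F
  aF : a ∈ F
  bF : b ∈ F
  ZF : Za ∈ F
  Sw : S (w 0) = w 0 + a
  Su : S (w 1) = w 1 + b
  za : ∀ ε : ℝ, 0 < ε → ∀ θ ∈ F, v.Ge (-ε) (z - θ) → v.Ge (-ε) (S θ - θ - Za)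

/-- From the displacement at one approximation. -/
theorem za_of {S : Ω →ₐ[k] Ω} {Za : Ω} (hS : IsoE v v S)
    (hza : ∀ ε : ℝ, 0 < ε → ∃ θ ∈ F, v.Ge (-ε) (z - θ) ∧ v.Ge 0 (S θ - θ - Za)) (ε : ℝ)
    (hε : 0 < ε) (θ : Ω) (h : v.Ge (-ε) (z - θ)) : v.Ge (-ε) (S θ - θ - Za) := by
  obtain ⟨θ₁, -, h1, h2⟩ := hza ε hε
  have h3 : v.Ge (-ε) (θ - θ₁) := by
    have e : θ - θ₁ = (z - θ₁) - (z - θ) := by ring
    rw [e]
    exact h1.sub h
  have e : S θ - θ - Za = (S θ₁ - θ₁ - Za) + (S (θ - θ₁) - (θ - θ₁)) := by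
    rw [map_sub]
    ring
  rw [e]
  exact (h2.mono (by linarith)).add ((hS.ge_iff.2 h3).sub h3)

omit [Field Ω] in
theorem w_eq (w : Fin 2 → Ω) : w = ![w 0, w 1] := by
  funext i
  fin_cases i <;> rfl

theorem eval_w (w : Fin 2 → Ω) (f : MvPolynomial (Fin 2) Ω) :
    eval w f = eval ![w 0, w 1] f := by
  rw [← w_eq]

theorem shU_trf (w u : Ω) (f : MvPolynomial (Fin 2) Ω) : shU U (trf w u 0 f) = trf w u U f := by
  have h := sbU_trf w u 0 U f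
  rw [zero_add] at h
  exact h

theorem trf_C (w u : Ω) (f : Polynomial Ω) (a : Ω) : trf w u f (C a) = C a := by
  rw [← algebraMap_eq, AlgHom.commutes]

/-- `Z` is near to `E(s, c + U(s))`. -/
theorem jet_oo [Infinite k] (hF : FrO v W F w z T U Z) {ε : ℝ} (hε : 0 ≤ ε)
    {θ : MvPolynomial (Fin 2) Ω} (hθ : ∀ g, coeff g θ ∈ W) (h1 : v.Ge (-ε) (z - eval w θ)) (g : Ex) :
    v.Ge (-ε) (coeff g (Z - (shU U (trf (w 0) (w 1) 0 θ) - C (eval w θ)))) := by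
  rw [shU_trf, eval_w w]
  rw [eval_w w] at h1
  exact ge_trf hF.c0 hF.iso hF.fix hF.Tw hF.Tu hF.jet hε hθ h1 g

/-- **`(a*)`, in the words of the frame.** -/
theorem astar_fr [Infinite k] (hF : FrO v W F w z T U Z)
    (hz : ∀ ε : ℝ, 0 < ε → ∃ θ : MvPolynomial (Fin 2) Ω, (∀ g, coeff g θ ∈ W) ∧
      v.Ge (-ε) (z - eval w θ)) {S : Ω →ₐ[k] Ω} {a b Za : Ω} (hS : MoO v F w z S a b Za)
    (d : Ω →ₗ[F] Ω) (hd : ∀ (y : Ω) (c : ℝ), v.Ge c y → v.Ge c (d y)) (hdF : ∀ f ∈ F, d f = 0)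
    (g : Ex) : v.Ge 0 (coeff g (aeval (Lp a (TWRB.psi S a b U)) (dt d U Z) +
      dt d (U.map (S : Ω →+* Ω)) (zet S (Lp a (TWRB.psi S a b U)) Za Z))) := by
  refine astar_oo hF.c0 hS.iso hS.map hS.aF hS.bF hS.ZF hF.Ul d hd hdF (fun ε hε => ?_) g
  obtain ⟨θ, hθ, h1⟩ := hz ε hε
  refine ⟨trf (w 0) (w 1) 0 θ - C (eval w θ), fun g => ?_, fun g => ?_⟩
  · have h2 : trf (w 0) (w 1) 0 θ ∈ PF F := fun g =>
      trf_mem (hF.wF 0) (hF.wF 1) (fun j => by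
        rw [Polynomial.coeff_zero]
        exact zero_mem _) (fun g => hF.le (hθ g)) g
    have h3 : eval w θ ∈ F := by
      rw [eval_eq]
      exact sum_mem fun m _ => mul_mem (hF.le (hθ m)) (prod_mem fun i _ => pow_mem (hF.wF i) _)
    exact mem_PF.1 (sub_mem h2 (C_mem_PF h3)) g
  · rw [map_sub, shU_C]
    exact jet_oo hF hε.le hθ h1 g

/-- The integrality of `dt d U Z`. -/
theorem dtZ_fr [Infinite k] (hF : FrO v W F w z T U Z)
    (hz : ∀ ε : ℝ, 0 < ε → ∃ θ : MvPolynomial (Fin 2) Ω, (∀ g, coeff g θ ∈ W) ∧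
      v.Ge (-ε) (z - eval w θ)) (d : Ω →ₗ[F] Ω)
    (hd : ∀ (y : Ω) (c : ℝ), v.Ge c y → v.Ge c (d y)) (hdF : ∀ f ∈ F, d f = 0)
    (g : Ex) : v.Ge 0 (coeff g (dt d U Z)) := by
  refine dt_near d hF.c0 (admE_all le_rfl) hd hF.Ul (fun _ _ => trivial) (fun ε hε => ?_) g
  obtain ⟨θ, hθ, h1⟩ := hz ε hε
  refine ⟨trf (w 0) (w 1) 0 θ - C (eval w θ), fun _ _ => trivial, fun g => hdF _ ?_, fun g => ?_⟩
  · have h2 : trf (w 0) (w 1) 0 θ ∈ PF F := fun g =>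
      trf_mem (hF.wF 0) (hF.wF 1) (fun j => by
        rw [Polynomial.coeff_zero]
        exact zero_mem _) (fun g => hF.le (hθ g)) g
    have h3 : eval w θ ∈ F := by
      rw [eval_eq]
      exact sum_mem fun m _ => mul_mem (hF.le (hθ m)) (prod_mem fun i _ => pow_mem (hF.wF i) _)
    exact mem_PF.1 (sub_mem h2 (C_mem_PF h3)) g
  · rw [map_sub, shU_C, zero_sub]
    exact jet_oo hF hε.le hθ h1 g

/-! ### The tie -/

variable {p : ℕ} [hp : Fact p.Prime] [CharP Ω p] {κ : ℕ → k} {t : ℕ} {e : k} {l : Fin 2 → k}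

/-- The linear form. -/
noncomputable def ln (Ω : Type u) [Field Ω] [Algebra k Ω] (l : Fin 2 → k) :
    MvPolynomial (Fin 2) Ω :=
  C (algebraMap k Ω (l 0)) * X 0 + C (algebraMap k Ω (l 1)) * X 1

/-- The part of `Pa` with exponents divisible by `p`, translated. -/
noncomputable def Ap (w : Fin 2 → Ω) (l : Fin 2 → k) (Pa : MvPolynomial (Fin 2) Ω) :
    MvPolynomial (Fin 2) Ω := trf (w 0) (w 1) 0 (Pa - ln Ω l)

/-- `l 0 w 0 + l 1 w 1`. -/
noncomputable def bw (w : Fin 2 → Ω) (l : Fin 2 → k) : Ω :=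
  algebraMap k Ω (l 0) * w 0 + algebraMap k Ω (l 1) * w 1

omit hp [CharP Ω p] in
theorem qf_pp (hPD : ∀ g : Ex, ¬ (∀ i, p ∣ g i) → coeff g Pa = coeff g (ln Ω l)) :
    QF (fun m => ∀ i, p ∣ m i) (Pa - ln Ω l) := by
  intro g hg
  by_contra h
  exact hg (by rw [coeff_sub, hPD g h, sub_self])

/-- **The hypothesis of `bstar_oo`, from the tie.** -/
theorem tie_oo [Infinite k] (hF : FrO v W F w z T U Z) (hx : x ∈ W)
    (hPa : ∀ g, coeff g Pa ∈ W) (hT : TiO p v W w x z e κ t Pa) (ε : ℝ) (hε : 0 < ε) :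
    ∃ (θ h : MvPolynomial (Fin 2) Ω) (θ₀ h₀ : Ω),
      (∀ g, coeff g θ ∈ F) ∧ (∀ g, coeff g h ∈ F) ∧ θ₀ ∈ F ∧ h₀ ∈ F ∧
      (e ≠ 0 → QF (fun m => ∀ i, p ∣ m i) θ) ∧ v.Ge (-ε) (z - θ₀) ∧
      (∀ g, v.Ge (-ε) (coeff g (Z - (shU U θ - C θ₀)))) ∧
      (∀ g, v.Ge (-ε) (coeff g (shU U (C (algebraMap k Ω e) * θ + C x * PP p κ t θ +
        Ap w l Pa - h ^ p) + linT Ω (bw w l) (l 0) (l 1) U))) ∧
      v.Ge (-ε) (algebraMap k Ω e * θ₀ + x * PP p κ t θ₀ + eval w Pa - h₀ ^ p) := by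
  obtain ⟨θ, h, hθ, hh, hQ, h1, h2⟩ := hT ε hε
  have hev : ∀ f : MvPolynomial (Fin 2) Ω, (∀ g, coeff g f ∈ W) → eval w f ∈ F := fun f hf => by
    rw [eval_eq]
    exact sum_mem fun m _ => mul_mem (hF.le (hf m)) (prod_mem fun i _ => pow_mem (hF.wF i) _)
  have htr : ∀ f : MvPolynomial (Fin 2) Ω, (∀ g, coeff g f ∈ W) →
      ∀ g, coeff g (trf (w 0) (w 1) 0 f) ∈ F := fun f hf g =>
    trf_mem (hF.wF 0) (hF.wF 1) (fun j => by
        rw [Polynomial.coeff_zero]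
        exact zero_mem _) (fun g => hF.le (hf g)) g
  have hevPP : eval w (PP p κ t θ) = PP p κ t (eval w θ) := by
    unfold PP
    rw [map_sum]
    refine Finset.sum_congr rfl fun i _ => ?_
    rw [map_mul, map_pow, IsScalarTower.algebraMap_apply k Ω (MvPolynomial (Fin 2) Ω),
      algebraMap_eq, eval_C]
  set E : MvPolynomial (Fin 2) Ω := C (algebraMap k Ω e) * θ + C x * PP p κ t θ + Pa - h ^ p
    with hE
  have hθ' : θ ∈ PF W := hθ
  have hEW : ∀ g, coeff g E ∈ W := by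
    refine mem_PF.1 (sub_mem (add_mem (add_mem (mul_mem (C_mem_PF (W.algebraMap_mem e)) hθ')
      (mul_mem (C_mem_PF hx) ?_)) hPa) (pow_mem (show h ∈ PF W from hh) p))
    unfold PP
    exact sum_mem fun i _ => mul_mem ((PF W).algebraMap_mem _) (pow_mem hθ' _)
  refine ⟨trf (w 0) (w 1) 0 θ, trf (w 0) (w 1) 0 h, eval w θ, eval w h, htr θ hθ, htr h hh,
    hev θ hθ, hev h hh, fun h0 => ?_, h1, fun g => jet_oo hF hε.le hθ h1 g, fun g => ?_, ?_⟩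
  · exact (hQ h0).map_aeval (admE_p (S₀ := ⊤) (C₀ := F) p fun c _ => IntermediateField.mem_top) _
  · have h3 := h2
    rw [eval_w w] at h3
    have h4 := ge_trf0 hF.c0 hF.iso hF.fix hF.Tw hF.Tu hEW h3 g
    have e1 : trf (w 0) (w 1) U E = shU U (C (algebraMap k Ω e) * trf (w 0) (w 1) 0 θ +
        C x * PP p κ t (trf (w 0) (w 1) 0 θ) + Ap w l Pa - trf (w 0) (w 1) 0 h ^ p) +
        linT Ω (bw w l) (l 0) (l 1) U := by
      have hPPt : trf (w 0) (w 1) U (PP p κ t θ) = PP p κ t (trf (w 0) (w 1) U θ) :=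
        PP_map ((trf (w 0) (w 1) U).restrictScalars k) θ
      have hPPs : ∀ f : MvPolynomial (Fin 2) Ω, shU U (PP p κ t f) = PP p κ t (shU U f) :=
        fun f => PP_map ((shU U).restrictScalars k) f
      have hX0 : trf (w 0) (w 1) U (X 0) = C (w 0) + X 0 := by
        rw [trf, aeval_X]
        rfl
      have hX1 : trf (w 0) (w 1) U (X 1) = C (w 1) + X 1 + Polynomial.aeval (X 0) U := by
        rw [trf, aeval_X]
        rfl
      have hln : trf (w 0) (w 1) U (ln Ω l) = linT Ω (bw w l) (l 0) (l 1) U := by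
        unfold ln linT bw
        rw [map_add, map_mul, map_mul, trf_C, trf_C, hX0, hX1, C_add, C_mul, C_mul]
        ring
      have ea : trf (w 0) (w 1) U E = C (algebraMap k Ω e) * trf (w 0) (w 1) U θ +
          C x * PP p κ t (trf (w 0) (w 1) U θ) + trf (w 0) (w 1) U Pa -
          trf (w 0) (w 1) U h ^ p := by
        rw [hE, map_sub, map_add, map_add, map_mul, map_mul, map_pow, trf_C, trf_C, hPPt]
      have eb : shU U (C (algebraMap k Ω e) * trf (w 0) (w 1) 0 θ +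
          C x * PP p κ t (trf (w 0) (w 1) 0 θ) + Ap w l Pa - trf (w 0) (w 1) 0 h ^ p) =
          C (algebraMap k Ω e) * trf (w 0) (w 1) U θ +
          C x * PP p κ t (trf (w 0) (w 1) U θ) + trf (w 0) (w 1) U (Pa - ln Ω l) -
          trf (w 0) (w 1) U h ^ p := by
        rw [map_sub, map_add, map_add, map_mul, map_mul, map_pow, shU_C, shU_C, hPPs, shU_trf,
          Ap, shU_trf, shU_trf]
      rw [ea, eb, ← hln, map_sub (trf (w 0) (w 1) U)]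
      ring
    rwa [e1] at h4
  · have h3 := h2
    rw [map_sub, map_add, map_add, map_mul, map_mul, map_pow, eval_C, eval_C, hevPP] at h3
    exact h3

/-- **`(b*)`, in the words of the frame.** -/
theorem bstar_fr [Infinite k] (hF : FrO v W F w z T U Z) (hx : x ∈ W)
    (hPa : ∀ g, coeff g Pa ∈ W) (hPD : ∀ g : Ex, ¬ (∀ i, p ∣ g i) → coeff g Pa = coeff g (ln Ω l))
    (hT : TiO p v W w x z e κ t Pa) (hZ : e ≠ 0 → QF (fun m => ∀ i, p ∣ m i) Z)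
    {S : Ω →ₐ[k] Ω} {a b Za : Ω} (hS : MoO v F w z S a b Za) (hSx : S x = x)
    (hSP : ∀ g, S (coeff g Pa) = coeff g Pa) (hSp : ∀ c ∈ F, c ^ p ∈ S₀) (D : Ω →ₗ[S₀] Ω)
    (hD : ∀ (y : Ω) (c : ℝ), v.Ge c y → v.Ge c (D y)) (hD1 : D 1 = 0) (hDx : v.Ge 0 (D x))
    (g : Ex) :
    v.Ge 0 (coeff g (aeval (Lp a (TWRB.psi S a b U))
        (Gm D U e (l 1) x p κ t Z (Ap w l Pa) (bw w l) (eval w Pa)) +
      C (D x) * PP p κ t (zet S (Lp a (TWRB.psi S a b U)) Za Z) +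
      C (algebraMap k Ω e) *
        dt D (U.map (S : Ω →+* Ω)) (zet S (Lp a (TWRB.psi S a b U)) Za Z) +
      Er D S a b U (l 0) (l 1))) := by
  refine bstar_oo hF.c0 hS.iso hS.map hSp hS.aF hS.bF hSx ?_ hF.Ul D hD hD1 hDx hZ ?_ ?_
    (fun ε hε => ?_) g
  · unfold bw
    rw [map_add, map_mul, map_mul, AlgHom.commutes, AlgHom.commutes, hS.Sw, hS.Su]
    ring
  · exact (qf_pp hPD).map_aeval
      (admE_p (S₀ := ⊤) (C₀ := F) p fun c _ => IntermediateField.mem_top) _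
  · -- `S` fixes the coefficients of `Pa - ln`
    have hfix : ∀ g, S (coeff g (Pa - ln Ω l)) = coeff g (Pa - ln Ω l) := by
      classical
      intro g
      rw [coeff_sub, map_sub, hSP]
      congr 1
      unfold ln
      rw [coeff_add, coeff_C_mul, coeff_C_mul, coeff_X, coeff_X, map_add, map_mul, map_mul,
        AlgHom.commutes, AlgHom.commutes]
      congr 2 <;> split_ifs
      exacts [map_one S, map_zero S, map_one S, map_zero S]
    have hmap : MvPolynomial.map (S : Ω →+* Ω) (Pa - ln Ω l) = Pa - ln Ω l := by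
      ext m
      rw [coeff_map]
      exact hfix m
    have key : ∀ f : MvPolynomial (Fin 2) Ω,
        MvPolynomial.map (S : Ω →+* Ω) (trf (w 0) (w 1) 0 f) =
          aeval (Lp a (Polynomial.C b)) (trf (w 0) (w 1) 0
            (MvPolynomial.map (S : Ω →+* Ω) f)) := by
      intro f
      have h : (MvPolynomial.map (S : Ω →+* Ω)).comp
          (trf (w 0) (w 1) 0 : MvPolynomial (Fin 2) Ω →+* MvPolynomial (Fin 2) Ω) =
          ((aeval (Lp a (Polynomial.C b))).comp (trf (w 0) (w 1) 0) :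
            MvPolynomial (Fin 2) Ω →+* MvPolynomial (Fin 2) Ω).comp
            (MvPolynomial.map (S : Ω →+* Ω)) := by
        refine MvPolynomial.ringHom_ext (fun y => ?_) fun i => ?_
        · simp [trf]
        · fin_cases i
          · simp [trf, hS.Sw, Lp]
            ring
          · simp [trf, hS.Su, Lp]
            ring
      exact DFunLike.congr_fun h f
    rw [Ap, key, hmap]
  · obtain ⟨θ, h, θ₀, h₀, a1, a2, a3, a4, a5, a6, a7, a8, a9⟩ :=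
      tie_oo (l := l) hF hx hPa hT ε hε
    exact ⟨θ, h, θ₀, h₀, a1, a2, a3, a4, a5, hS.za ε hε θ₀ a3 a6, a7, a8, a9⟩

/-- The integrality. -/
theorem gm_fr [Infinite k] (hF : FrO v W F w z T U Z) (hx : x ∈ W)
    (hPa : ∀ g, coeff g Pa ∈ W) (hPD : ∀ g : Ex, ¬ (∀ i, p ∣ g i) → coeff g Pa = coeff g (ln Ω l))
    (hT : TiO p v W w x z e κ t Pa) (hZ : e ≠ 0 → QF (fun m => ∀ i, p ∣ m i) Z)
    (hSp : ∀ c ∈ F, c ^ p ∈ S₀) (D : Ω →ₗ[S₀] Ω)
    (hD : ∀ (y : Ω) (c : ℝ), v.Ge c y → v.Ge c (D y)) (hD1 : D 1 = 0) (hDx : v.Ge 0 (D x))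
    (g : Ex) :
    v.Ge 0 (coeff g (Gm D U e (l 1) x p κ t Z (Ap w l Pa) (bw w l) (eval w Pa))) := by
  refine gm_ge (e₁ := l 0) hF.c0 hSp hF.Ul D hD hD1 hDx hZ ?_ (fun ε hε => ?_) g
  · exact (qf_pp hPD).map_aeval
      (admE_p (S₀ := ⊤) (C₀ := F) p fun c _ => IntermediateField.mem_top) _
  · obtain ⟨θ, h, θ₀, h₀, a1, a2, a3, a4, a5, -, a7, a8, a9⟩ :=
      tie_oo (l := l) hF hx hPa hT ε hε
    exact ⟨θ, h, θ₀, h₀, a1, a2, a3, a4, a5, a7, a8, a9⟩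

end Pool.Agent.TWEC
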