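import Pool.Agent.Lib.TWEC.Tw

/-!
# RowB: the twisted functionals and the linear terms

`lnP a e₁ e₂ t = a + e₁ s + e₂ (c + t(s))`, which is not admissible.
* `dt_linP`: if `A + lnP` is in `O_r` and `A` is admissible, then `dt d t A + Dc d lnP` is in `O_r`.
-/

set_option autoImplicit false

open MvPolynomial

namespace Pool.Agent.TWEC

open Pool.Agent.H15JM (RVal)
open Pool.Agent.D2 (Ctx0)
open Pool.Agent.TWM
open Pool.Agent.TWS (IsoE)
open Pool.Agent.TWLY
open Pool.Agent.TWCY
open Pool.Agent.TWCU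
open Pool.Agent.TWRB
open Pool.Agent.TWLG64

universe u

variable {k Ω : Type u} [Field k] [Field Ω] [Algebra k Ω] {v : RVal Ω}
  {S₀ C₀ : IntermediateField k Ω} {Q : Ex → Prop}

theorem single_eq_iff (g : Ex) (i : ℕ) : Finsupp.single 0 i = g ↔ g 1 = 0 ∧ g 0 = i := by
  constructor
  · rintro rfl
    simp
  · rintro ⟨h1, rfl⟩
    ext j
    fin_cases j
    · simp
    · simp [h1]

/-- The coefficients of a polynomial in `s`. -/
theorem coeff_polyS (q : Polynomial Ω) (g : Ex) :
    coeff g (Polynomial.aeval (X 0 : MvPolynomial (Fin 2) Ω) q) =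
      if g 1 = 0 then q.coeff (g 0) else 0 := by
  classical
  rw [Polynomial.aeval_eq_sum_range, coeff_sum]
  simp_rw [coeff_smul, smul_eq_mul, coeff_X_pow, single_eq_iff]
  split_ifs with h
  · simp only [h, true_and, mul_ite, mul_one, mul_zero]
    rw [Finset.sum_ite_eq]
    split_ifs with h1
    · rfl
    · rw [Finset.mem_range, not_lt] at h1
      exact (Polynomial.coeff_eq_zero_of_natDegree_lt (by omega)).symm
  · simp [h]

/-- `d` on the coefficients of a polynomial in one variable. -/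
noncomputable def pm (d : Ω → Ω) (q : Polynomial Ω) : Polynomial Ω :=
  ∑ j ∈ q.support, Polynomial.monomial j (d (q.coeff j))

theorem pm_coeff {d : Ω → Ω} (h0 : d 0 = 0) (q : Polynomial Ω) (j : ℕ) :
    (pm d q).coeff j = d (q.coeff j) := by
  classical
  rw [pm, Polynomial.finsetSum_coeff]
  simp_rw [Polynomial.coeff_monomial]
  rw [Finset.sum_ite_eq']
  split_ifs with h
  · rfl
  · rw [Polynomial.notMem_support_iff.1 h, h0]

/-- `a + e₁ s + e₂ (c + t(s))`. -/
noncomputable def lnP (a : Ω) (e₁ e₂ : k) (t : Polynomial Ω) : MvPolynomial (Fin 2) Ω :=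
  C a + C (algebraMap k Ω e₁) * X 0 + C (algebraMap k Ω e₂) *
    (X 1 + Polynomial.aeval (X 0) t)

/-- The value of `d` on it. -/
noncomputable def dlP (d : Ω → Ω) (a : Ω) (e₂ : k) (t : Polynomial Ω) : MvPolynomial (Fin 2) Ω :=
  C (d a) + C (algebraMap k Ω e₂) * Polynomial.aeval (X 0) (pm d t)

theorem map_kmul (d : Ω →ₗ[S₀] Ω) (c : k) (y : Ω) :
    d (algebraMap k Ω c * y) = algebraMap k Ω c * d y := by
  have h := d.map_smul (⟨algebraMap k Ω c, S₀.algebraMap_mem c⟩ : S₀) y
  exact h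

theorem Dc_lnP (d : Ω →ₗ[S₀] Ω) (hd1 : d 1 = 0) (a : Ω) (e₁ e₂ : k) (t : Polynomial Ω) :
    Dc d (lnP a e₁ e₂ t) = dlP d a e₂ t := by
  classical
  ext g
  rw [coeff_Dc' (map_zero d), lnP, dlP]
  simp only [coeff_add, coeff_C_mul, coeff_C, coeff_X, map_add, map_kmul, coeff_polyS,
    pm_coeff (map_zero d)]
  have h1 : ∀ P : Prop, [Decidable P] → d (if P then (1 : Ω) else 0) = 0 := by
    intro P _
    split_ifs
    exacts [hd1, map_zero d]
  have h2 : ∀ (P : Prop) [Decidable P] (y : Ω), d (if P then y else 0) = if P then d y else 0 := by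
    intro P _ y
    split_ifs
    exacts [rfl, map_zero d]
  rw [h1, h1, h2, h2]
  ring

theorem shU_lnP (δ : Polynomial Ω) (a : Ω) (e₁ e₂ : k) (t : Polynomial Ω) :
    shU δ (lnP a e₁ e₂ t) = lnP a e₁ e₂ (t + δ) := by
  have sC : ∀ b : Ω, shU δ (C b) = C b := fun b => by
    rw [← algebraMap_eq, AlgHom.commutes]
  rw [lnP, lnP, map_add, map_add, map_mul, map_mul, map_add, sC, sC, sC, shU_X0, shU_X1, shU_aeval,
    map_add]
  ring

theorem shU_dlP (δ : Polynomial Ω) (d : Ω → Ω) (a : Ω) (e₂ : k) (t : Polynomial Ω) :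
    shU δ (dlP d a e₂ t) = dlP d a e₂ t := by
  have sC : ∀ b : Ω, shU δ (C b) = C b := fun b => by
    rw [← algebraMap_eq, AlgHom.commutes]
  rw [dlP, map_add, map_mul, sC, sC, shU_aeval]

/-- **The linear terms.** -/
theorem dt_linP (hk : Ctx0 k v) (hA : AdmE S₀ C₀ Q) (d : Ω →ₗ[S₀] Ω)
    (hd : ∀ (y : Ω) (c : ℝ), v.Ge c y → v.Ge c (d y)) (hd1 : d 1 = 0) {t : Polynomial Ω}
    (ht : ∀ j, Lim v C₀ 0 (t.coeff j)) {r : ℝ} (hr : r ≤ 0) {A : MvPolynomial (Fin 2) Ω}
    (hQ : QF Q A) {a : Ω} {e₁ e₂ : k} (h : ∀ g, v.Ge r (coeff g (A + lnP a e₁ e₂ t))) (g : Ex) :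
    v.Ge r (coeff g (dt d t A + dlP d a e₂ t)) := by
  classical
  set F := A + lnP a e₁ e₂ t with hF
  obtain ⟨N, hN, hN1⟩ : ∃ N : ℕ, (∀ m ∈ F.support, m 1 ≤ N) ∧ 1 ≤ N :=
    ⟨F.support.sup (fun m => m 1) + 1, fun m hm =>
      (Finset.le_sup (f := fun m : Ex => m 1) hm).trans (Nat.le_succ _), Nat.le_add_left _ _⟩
  have hN1' : (1 : ℝ) ≤ N := by exact_mod_cast hN1
  have key : ∀ ε : ℝ, 0 < ε → v.Ge (r - N * ε) (coeff g (dt d t A + dlP d a e₂ t)) := by
    intro ε hε
    set w : Fin 2 → ℝ := ![0, ε] with hw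
    have w0 : w 0 = 0 := rfl
    have w1 : w 1 = ε := rfl
    have h1 : Fil v w (N * ε - r) F := by
      intro m
      by_cases hm : m ∈ F.support
      · refine (h m).mono ?_
        have h2 : ((m 1 : ℕ) : ℝ) ≤ N := by exact_mod_cast hN m hm
        unfold wt
        rw [w0, w1]
        nlinarith
      · rw [notMem_support_iff.1 hm]
        exact fun h => absurd rfl h
    obtain ⟨f, hf, h2, h3⟩ := exists_approx (C₀ := C₀) (t := t) (ε := fun _ => ε)
      (fun _ => Or.inl hε) ht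
    have hδ : ∀ j : ℕ, v.Ge (j * w 0 - w 1) ((t - f).coeff j) := fun j => by
      rw [w0, w1, mul_zero, zero_sub]
      exact h2 j
    have hδ' : ∀ j : ℕ, v.Ge (j * w 0 - w 1) ((-(t - f)).coeff j) := fun j => by
      rw [Polynomial.coeff_neg]
      exact (hδ j).neg
    have e1 : dt d t A = dt d (t - f) A := by
      conv_lhs => rw [← sub_add_cancel t f]
      exact dt_congr d hA hf hQ
    have e2 : shU (t - f) (Dc d (shU (-(t - f)) F)) = dt d t A + dlP d a e₂ f := by
      rw [hF, map_add, Dc_add, map_add, e1, dt, shU_lnP, Dc_lnP d hd1, shU_dlP]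
      congr 2
      ring
    have h4 : Fil v w (N * ε - r) (dt d t A + dlP d a e₂ f) := by
      rw [← e2]
      exact shU_fil hk hδ (Dc_fil d hd (shU_fil hk hδ' h1))
    have h5 : v.Ge (-ε) (coeff g (dlP d a e₂ t - dlP d a e₂ f)) := by
      rw [dlP, dlP, add_sub_add_left_eq_sub, ← mul_sub, coeff_C_mul, coeff_sub, coeff_polyS,
        coeff_polyS, pm_coeff (map_zero d), pm_coeff (map_zero d)]
      have h6 : v.Ge (-ε) ((if g 1 = 0 then d (t.coeff (g 0)) else 0) -
          if g 1 = 0 then d (f.coeff (g 0)) else 0) := by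
        split_ifs
        · rw [← map_sub, ← Polynomial.coeff_sub]
          exact hd _ _ (h2 _)
        · rw [sub_self]
          exact RVal.Ge.zero
      have h7 := (hk.ge e₂).mul h6
      rwa [zero_add] at h7
    have e3 : coeff g (dt d t A + dlP d a e₂ t) = coeff g (dt d t A + dlP d a e₂ f) +
        coeff g (dlP d a e₂ t - dlP d a e₂ f) := by
      rw [← coeff_add]
      congr 1
      ring
    rw [e3]
    refine ((h4 g).mono ?_).add (h5.mono ?_)
    · have : (0 : ℝ) ≤ wt w g := by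
        unfold wt
        rw [w0, w1]
        positivity
      linarith
    · nlinarith
  intro h0
  refine le_of_forall_pos_le_add fun η hη => ?_
  have h1 := key (η / N) (by positivity) h0
  have h2 : (N : ℝ) * (η / N) = η := by
    field_simp
  linarith

end Pool.Agent.TWEC
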